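import Pool.Agent.W353.EF.Defs

/-!
# The edge of the L-functions of the quadratic twists of an elliptic curve over extension fields:
definitions

`K` is any number field, for instance `ℚ`, and `E` any elliptic curve over `K`.  For a number field
`F ⊇ K` and `D ∈ F^*` let `E_D / F` be the twist of `E` over `F` by the quadratic character of
`F(√D)/F`.
-/

set_option autoImplicit false
open Classical

namespace Pool.Agent.TH322.BC.Edge

open NumberField IsDedekindDomain Filter Topology
open Pool.Agent.W353.EF (perm derangements)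

/-- The quadratic twist `y² = x³ - 27 d² c₄(E) x - 54 d³ c₆(E)` of `E` by `d`. -/
noncomputable def twist {F : Type} [Field F] (E : WeierstrassCurve F) (d : F) :
    WeierstrassCurve F where
  a₁ := 0
  a₂ := 0
  a₃ := 0
  a₄ := -27 * d ^ 2 * E.c₄
  a₆ := -54 * d ^ 3 * E.c₆

/-- `V v` is, for every `v`, an integral model of `E` with discriminant minimal at `v`. -/
def MinimalModels {F : Type} [Field F] [NumberField F] (E : WeierstrassCurve F)
    (V : HeightOneSpectrum (𝓞 F) → WeierstrassCurve (𝓞 F)) : Prop :=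
  ∀ v : HeightOneSpectrum (𝓞 F),
    (∃ C : WeierstrassCurve.VariableChange F, C • E = (V v).map (algebraMap (𝓞 F) F)) ∧
    ∀ W : WeierstrassCurve (𝓞 F),
      (∃ C : WeierstrassCurve.VariableChange F, C • E = W.map (algebraMap (𝓞 F) F)) →
        ∀ n : ℕ, (V v).Δ ∈ v.asIdeal ^ n → W.Δ ∈ v.asIdeal ^ n

/-- The Euler product of the problem, computed from the reductions of the models `V v`: the factor at
`v` is `(1 - a_v q_v^{-s} + q_v^{1 - 2s})⁻¹` if the reduction is good and `(1 - a_v q_v^{-s})⁻¹` if it
is bad, where `a_v` is `q_v` minus the number of the affine points of the reduction (`1`, `-1` or `0`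
if the reduction is split multiplicative, non-split multiplicative or additive). -/
noncomputable def LSeries {F : Type} [Field F] [NumberField F]
    (V : HeightOneSpectrum (𝓞 F) → WeierstrassCurve (𝓞 F)) (s : ℂ) : ℂ :=
  ∏' v : HeightOneSpectrum (𝓞 F),
    (1 - ((((Ideal.absNorm v.asIdeal : ℕ) : ℤ) -
          ((Nat.card {p : (𝓞 F ⧸ v.asIdeal) × (𝓞 F ⧸ v.asIdeal) //
            p.2 ^ 2 + Ideal.Quotient.mk v.asIdeal (V v).a₁ * p.1 * p.2
              + Ideal.Quotient.mk v.asIdeal (V v).a₃ * p.2
            = p.1 ^ 3 + Ideal.Quotient.mk v.asIdeal (V v).a₂ * p.1 ^ 2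
              + Ideal.Quotient.mk v.asIdeal (V v).a₄ * p.1
              + Ideal.Quotient.mk v.asIdeal (V v).a₆} : ℕ) : ℤ) : ℤ) : ℂ)
          * ((Ideal.absNorm v.asIdeal : ℕ) : ℂ) ^ (-s)
      + (if (V v).Δ ∈ v.asIdeal then (0 : ℂ) else 1)
          * ((Ideal.absNorm v.asIdeal : ℕ) : ℂ) ^ (1 - 2 * s))⁻¹

/-- `log |L(3/2 + iτ + ε)| / log(1/ε)`; for a function with a meromorphic continuation of order `m` at
`3/2 + iτ` it tends to `-m` as `ε → 0+`. -/
noncomputable def size {F : Type} [Field F] [NumberField F]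
    (V : HeightOneSpectrum (𝓞 F) → WeierstrassCurve (𝓞 F)) (τ ε : ℝ) : ℝ :=
  Real.log ‖LSeries V (3 / 2 + τ * Complex.I + ε)‖ / Real.log (1 / ε)

/-- The Euler product has a meromorphic continuation to a neighbourhood of `3/2 + iτ`, of order `m` at
`3/2 + iτ` (`m < 0` for a pole, `m > 0` for a zero). -/
def HasOrder {F : Type} [Field F] [NumberField F]
    (V : HeightOneSpectrum (𝓞 F) → WeierstrassCurve (𝓞 F)) (τ : ℝ) (m : ℤ) : Prop :=
  ∃ Λ : ℂ → ℂ, MeromorphicAt Λ (3 / 2 + τ * Complex.I) ∧
    (∀ᶠ s in 𝓝 ((3 / 2 : ℂ) + τ * Complex.I), (3 / 2 : ℝ) < s.re → Λ s = LSeries V s) ∧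
    meromorphicOrderAt Λ (3 / 2 + τ * Complex.I) = m

/-- `limsup |x(ε)| ≤ B` as `ε → 0+`. -/
def LimsupLE (x : ℝ → ℝ) (B : ℝ) : Prop :=
  ∀ η : ℝ, 0 < η → ∀ᶠ ε : ℝ in 𝓝[>] 0, |x ε| ≤ B + η

/-- `1` at the real point, and `2/π` at the other points of the line. -/
noncomputable def kappa (τ : ℝ) : ℝ := if τ = 0 then 1 else 2 / Real.pi

section
variable {K : Type} [Field K] [NumberField K]

/-- A twist `E_D` over a number field `F ⊇ K`, with its minimal models. -/
structure TwistOver (E : WeierstrassCurve K) (F : Type) [Field F] [NumberField F]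
    [Algebra K F] where
  D : 𝓞 F
  D_ne_zero : D ≠ 0
  V : HeightOneSpectrum (𝓞 F) → WeierstrassCurve (𝓞 F)
  minimal : MinimalModels (twist (E.map (algebraMap K F)) (D : F)) V

/-- The character of the representation of `Gal(K̄/K)` induced from the quadratic character of
`F(√D)/F`: the number of the `K`-embeddings `i` of `F` fixed by `σ`, counted with the sign of the
action of `σ` on the square roots of `i(D)`. -/
noncomputable def character {F : Type} [Field F] [Algebra K F] (D : F)
    (σ : Gal(AlgebraicClosure K/K)) : ℤ :=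
  (Nat.card {i : F →ₐ[K] AlgebraicClosure K // perm K F σ i = i ∧
    ∀ s : AlgebraicClosure K, s ^ 2 = i D → σ s = s} : ℤ) -
  Nat.card {i : F →ₐ[K] AlgebraicClosure K // perm K F σ i = i ∧
    ∀ s : AlgebraicClosure K, s ^ 2 = i D → σ s = -s}

/-- All changes of the signs of the square roots of the conjugates of `D` occur for automorphisms
fixing all the conjugates of `F`. -/
def IndependentSigns {F : Type} [Field F] [Algebra K F] (D : F) : Prop :=
  ∀ ε : (F →ₐ[K] AlgebraicClosure K) → ℤˣ, ∃ h : Gal(AlgebraicClosure K/K), perm K F h = 1 ∧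
    ∀ i, ∀ s : AlgebraicClosure K, s ^ 2 = i D → h s = ((ε i : ℤˣ) : ℤ) * s

/-- Two conjugates `a(D)`, `b(D)` of `D` over `K` have a product that is not a square in the normal
closure of `F/K`. -/
def NonsquareProduct {F : Type} [Field F] [Algebra K F] (D : F) : Prop :=
  ∃ a b : F →ₐ[K] AlgebraicClosure K,
    ¬ ∃ x ∈ Pool.Agent.W353.EF.closure K F, x ^ 2 = a D * b D

/-- **Linear relations.**  For finitely many twists `E_D` over number fields `F ⊇ K`, with characters
`χ`, and real `c`: `limsup |∑ c log |L(E_D / F, 3/2 + iτ + ε)| / log(1/ε)| ≤ 2κ(τ) · mean |∑ c χ|`, and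
`|∑ c m| ≤ 2κ(τ) · mean |∑ c χ|` for the orders `m` at `3/2 + iτ`, if all functions have a continuation
to a neighbourhood of this point.  The mean value is taken over `Gal(K̄/K) / U`, where `U` is any open
normal subgroup acting trivially on the conjugates of the fields `F` and of the `√D`. -/
def Relations (E : WeierstrassCurve K) : Prop :=
  ∀ (ι : Type) [Fintype ι] (F : ι → Type) [∀ k, Field (F k)] [∀ k, NumberField (F k)]
    [∀ k, Algebra K (F k)] (X : ∀ k, TwistOver E (F k)) (U : Subgroup Gal(AlgebraicClosure K/K))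
    [U.Normal], IsOpen (U : Set Gal(AlgebraicClosure K/K)) →
    (∀ k, ∀ u ∈ U, perm K (F k) u = 1 ∧
      ∀ i : F k →ₐ[K] AlgebraicClosure K, ∀ s : AlgebraicClosure K, s ^ 2 = i (X k).D → u s = s) →
    ∀ (τ : ℝ) (c : ι → ℝ),
      LimsupLE (fun ε => ∑ k, c k * size (X k).V τ ε) (2 * (kappa τ *
        ((Nat.card (Gal(AlgebraicClosure K/K) ⧸ U) : ℝ)⁻¹ *
          ∑ᶠ q : Gal(AlgebraicClosure K/K) ⧸ U,
            |∑ k, c k * (character (K := K) ((X k).D : F k) q.out : ℝ)|))) ∧
      ∀ m : ι → ℤ, (∀ k, HasOrder (X k).V τ (m k)) → |∑ k, c k * m k| ≤ 2 * (kappa τ *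
        ((Nat.card (Gal(AlgebraicClosure K/K) ⧸ U) : ℝ)⁻¹ *
          ∑ᶠ q : Gal(AlgebraicClosure K/K) ⧸ U,
            |∑ k, c k * (character (K := K) ((X k).D : F k) q.out : ℝ)|))

/-- **Arbitrary extensions.**  Let `F/K` be a finite extension and `δ` the proportion of the
permutations without fixed point among the permutations of the embeddings of `F` given by the Galois
group of the normal closure.
1. `|m' - m| ≤ 4κ(τ)δ` for the orders `m`, `m'` of `L(E/K, s)` and `L(E/F, s)` at `3/2 + iτ`.
2. `|m| ≤ 2κ(τ)(1 - 3δ/4)` for the order `m` of `L(E_D/F, s)`, if all changes of signs of the `√D` occur.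
The same bounds hold for the `log |L(3/2 + iτ + ε)| / log(1/ε)` without a continuation. -/
def AllExtensions (E : WeierstrassCurve K) : Prop :=
  ∀ (F : Type) [Field F] [NumberField F] [Algebra K F] (τ : ℝ),
    (∀ (V : HeightOneSpectrum (𝓞 K) → WeierstrassCurve (𝓞 K))
      (V' : HeightOneSpectrum (𝓞 F) → WeierstrassCurve (𝓞 F)), MinimalModels E V →
      MinimalModels (E.map (algebraMap K F)) V' →
      LimsupLE (fun ε => size V' τ ε - size V τ ε) (4 * (kappa τ * derangements K F)) ∧
      ∀ m m' : ℤ, HasOrder V τ m → HasOrder V' τ m' →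
        |(m' : ℝ) - m| ≤ 4 * (kappa τ * derangements K F)) ∧
    ∀ X : TwistOver E F, IndependentSigns (K := K) (X.D : F) →
      LimsupLE (size X.V τ) (2 * (kappa τ * (1 - 3 / 4 * derangements K F))) ∧
      ∀ m : ℤ, HasOrder X.V τ m → |(m : ℝ)| ≤ 2 * (kappa τ * (1 - 3 / 4 * derangements K F))

/-- **Base change to extensions with symmetric Galois group.**  Let `F/K` be of degree `n ≥ 3` such
that all permutations of the embeddings of `F` are given by the Galois group.  If `τ ≠ 0`, then
`L(E/F, s)` and `L(E/K, s)` have the same order at `3/2 + iτ`; if `τ = 0` the orders differ by at most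
one.  Without a continuation: the quotients of logarithms differ asymptotically by at most `3/π < 1`,
and by at most `3/2` if `τ = 0`. -/
def SymmetricBaseChange (E : WeierstrassCurve K) : Prop :=
  ∀ (F : Type) [Field F] [NumberField F] [Algebra K F], Function.Surjective (perm K F) →
    3 ≤ Module.finrank K F → ∀ (V : HeightOneSpectrum (𝓞 K) → WeierstrassCurve (𝓞 K))
    (V' : HeightOneSpectrum (𝓞 F) → WeierstrassCurve (𝓞 F)), MinimalModels E V →
    MinimalModels (E.map (algebraMap K F)) V' → ∀ τ : ℝ,
      LimsupLE (fun ε => size V' τ ε - size V τ ε) (if τ = 0 then 3 / 2 else 3 / Real.pi) ∧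
      ∀ m m' : ℤ, HasOrder V τ m → HasOrder V' τ m' →
        if τ = 0 then |m' - m| ≤ 1 else m' = m

/-- **Twists over extensions with symmetric Galois group.**  Let `F/K` be of degree `n ≥ 3` such
that all permutations of the embeddings of `F` are given by the Galois group, and `D ∈ F^*` such that
the product of two conjugates of `D` is not a square in the normal closure of `F/K`.  If `τ ≠ 0`, then
the order of `L(E_D/F, s)` at `3/2 + iτ` is `0`; the order at `3/2` is at most one in absolute value.
Without a continuation: `log |L(E_D/F, 3/2 + iτ + ε)| / log(1/ε)` is asymptotically at most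
`3/π < 1` in absolute value, and at most `3/2` if `τ = 0`. -/
def SymmetricTwists (E : WeierstrassCurve K) : Prop :=
  ∀ (F : Type) [Field F] [NumberField F] [Algebra K F], Function.Surjective (perm K F) →
    3 ≤ Module.finrank K F → ∀ X : TwistOver E F, NonsquareProduct (K := K) (X.D : F) →
    ∀ τ : ℝ, LimsupLE (size X.V τ) (if τ = 0 then 3 / 2 else 3 / Real.pi) ∧
      ∀ m : ℤ, HasOrder X.V τ m → if τ = 0 then |m| ≤ 1 else m = 0

/-- **All twists over extensions of odd degree with symmetric Galois group.**  Let `F/K` be of odd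
degree `n ≥ 3` such that all permutations of the embeddings of `F` are given by the Galois group, and
`D ∈ F^*`.  Either the order of `L(E_D/F, s)` is zero at all points `3/2 + iτ`, `τ ≠ 0`, or `D` is the
product of an element `e` of `K` and a square, and at all these points the orders of `L(E_D/F, s)` and of
`L(E_e/K, s)` are equal. -/
def OddDegree (E : WeierstrassCurve K) : Prop :=
  ∀ (F : Type) [Field F] [NumberField F] [Algebra K F], Function.Surjective (perm K F) →
    3 ≤ Module.finrank K F → Odd (Module.finrank K F) → ∀ X : TwistOver E F,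
    (∀ τ : ℝ, τ ≠ 0 → LimsupLE (size X.V τ) (3 / Real.pi) ∧ ∀ m : ℤ, HasOrder X.V τ m → m = 0) ∨
    ∃ e : 𝓞 K, e ≠ 0 ∧ (∃ f : F, (X.D : F) = algebraMap K F (e : K) * f ^ 2) ∧
      ∀ V : HeightOneSpectrum (𝓞 K) → WeierstrassCurve (𝓞 K), MinimalModels (twist E (e : K)) V →
        ∀ τ : ℝ, τ ≠ 0 → LimsupLE (fun ε => size X.V τ ε - size V τ ε) (3 / Real.pi) ∧
          ∀ m m' : ℤ, HasOrder V τ m → HasOrder X.V τ m' → m' = m

end

end Pool.Agent.TH322.BC.Edge
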