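import Pool.Agent.TH322.BC.Signs

/-! Mean values of absolute values of sums of signs with product `1`. -/

set_option autoImplicit false
set_option linter.unusedSectionVars false

namespace Pool.Agent.TH322.BC

section
variable {Y : Type*} [Fintype Y] [DecidableEq Y]

/-- the sign vectors with product `1` -/
def evs (Y : Type*) [Fintype Y] [DecidableEq Y] : Finset (Y → ℤˣ) :=
  Finset.univ.filter fun ε => ∏ i, ε i = 1

theorem mem_evs {ε : Y → ℤˣ} : ε ∈ evs Y ↔ ∏ i, ε i = 1 := by
  unfold evs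
  rw [Finset.mem_filter]
  exact ⟨fun h => h.2, fun h => ⟨Finset.mem_univ _, h⟩⟩

theorem prod_flip (a : Y) (ε : Y → ℤˣ) : ∏ i, flip a ε i = -∏ i, ε i := by
  rw [← Finset.mul_prod_erase Finset.univ _ (Finset.mem_univ a),
    ← Finset.mul_prod_erase Finset.univ (fun i => ε i) (Finset.mem_univ a), flip_same, neg_mul]
  congr 2
  refine Finset.prod_congr rfl fun i hi => ?_
  exact flip_ne (Finset.ne_of_mem_erase hi) ε

theorem sum_half [Nonempty Y] (f : (Y → ℤˣ) → ℤ) (a : Y) (hf : ∀ ε, f (flip a ε) = f ε) :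
    2 * ∑ ε ∈ evs Y, f ε = ∑ ε, f ε := by
  classical
  rw [← Finset.sum_filter_add_sum_filter_not Finset.univ (fun ε : Y → ℤˣ => ∏ i, ε i = 1)]
  have h1 : ∑ ε ∈ Finset.univ.filter (fun ε : Y → ℤˣ => ¬ ∏ i, ε i = 1), f ε =
      ∑ ε ∈ evs Y, f ε := by
    refine Finset.sum_equiv (flip a) ?_ ?_
    · intro ε
      rw [mem_evs, prod_flip, Finset.mem_filter]
      constructor
      · rintro ⟨-, h⟩
        rcases Int.units_eq_one_or (∏ i, ε i) with h' | h'
        · exact absurd h' h
        · rw [h']; rfl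
      · intro h
        refine ⟨Finset.mem_univ _, fun h' => ?_⟩
        rw [h'] at h
        exact absurd h (by decide)
    · intro ε _
      rw [hf]
  rw [h1]
  unfold evs
  ring

theorem card_evs [Nonempty Y] : 2 * ((evs Y).card : ℤ) = 2 ^ Fintype.card Y := by
  have h := sum_half (Y := Y) (fun _ => 1) (Classical.arbitrary Y) (fun _ => rfl)
  rw [Finset.sum_const, Finset.sum_const, nsmul_eq_mul, nsmul_eq_mul, mul_one, mul_one,
    Finset.card_univ, card_signs] at h
  exact h

/-- sets different from the whole set -/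
theorem evs_proper {T : Finset Y} {a : Y} (ha : a ∉ T) (η : Y → ℤˣ) :
    2 * ∑ ε ∈ evs Y, |sgs T (fun i => η i * ε i)| = ∑ ε : Y → ℤˣ, |sgs T ε| := by
  have : Nonempty Y := ⟨a⟩
  rw [← sum_twist T η]
  refine sum_half (fun ε => |sgs T (fun i => η i * ε i)|) a fun ε => ?_
  congr 1
  unfold sgs
  refine Finset.sum_congr rfl fun i hi => ?_
  have h : i ≠ a := fun h => ha (by rw [← h]; exact hi)
  simp only
  rw [flip_ne h]

theorem evs_twist {η : Y → ℤˣ} (hη : ∏ i, η i = 1) :
    ∑ ε ∈ evs Y, |sgs Finset.univ (fun i => η i * ε i)| =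
      ∑ ε ∈ evs Y, |sgs Finset.univ ε| := by
  refine Finset.sum_equiv (Equiv.mulLeft η) ?_ ?_
  · intro ε
    rw [mem_evs, mem_evs]
    have : ∏ i, (Equiv.mulLeft η) ε i = ∏ i, ε i := by
      have e : ∀ i, (Equiv.mulLeft η) ε i = η i * ε i := fun i => rfl
      rw [Finset.prod_congr rfl fun i _ => e i, Finset.prod_mul_distrib, hη, one_mul]
    rw [this]
  · intro ε _
    rfl

/-- the sum of the signs modulo four -/
theorem sgs_mod (T : Finset Y) (ε : Y → ℤˣ) :
    (4 : ℤ) ∣ sgs T ε - T.card + 1 - ((∏ i ∈ T, ε i : ℤˣ) : ℤ) := by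
  classical
  induction T using Finset.induction_on with
  | empty => simp [sgs]
  | insert a S ha ih =>
    rw [sgs_insert ha, Finset.card_insert_of_notMem ha, Finset.prod_insert ha]
    rcases Int.units_eq_one_or (ε a) with h | h
    · rw [h, one_mul]
      push_cast
      have e : (1 : ℤ) + sgs S ε - (S.card + 1) + 1 - ((∏ i ∈ S, ε i : ℤˣ) : ℤ) =
        sgs S ε - S.card + 1 - ((∏ i ∈ S, ε i : ℤˣ) : ℤ) := by ring
      push_cast at e ih
      rw [e]
      exact ih
    · rw [h]
      rcases Int.units_eq_one_or (∏ i ∈ S, ε i) with h' | h'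
      · rw [h'] at ih ⊢
        push_cast at ih ⊢
        obtain ⟨k, hk⟩ := ih
        exact ⟨k, by linarith⟩
      · rw [h'] at ih ⊢
        push_cast at ih ⊢
        obtain ⟨k, hk⟩ := ih
        exact ⟨k - 1, by linarith⟩

theorem evs_pair {i j k : Y} (hij : i ≠ j) (hki : k ≠ i) (hkj : k ≠ j) :
    ∑ ε ∈ evs Y, ((ε i : ℤˣ) : ℤ) * (ε j : ℤˣ) = 0 := by
  have h1 : ∑ ε ∈ evs Y, ((ε i : ℤˣ) : ℤ) * (ε j : ℤˣ) =
      ∑ ε ∈ evs Y, -(((ε i : ℤˣ) : ℤ) * (ε j : ℤˣ)) := by
    refine Finset.sum_equiv ((flip i).trans (flip k)) ?_ ?_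
    · intro ε
      rw [mem_evs, mem_evs]
      have e : ∀ l, ((flip i).trans (flip k)) ε l = flip k (flip i ε) l := fun l => rfl
      rw [Finset.prod_congr rfl fun l _ => e l, prod_flip, prod_flip, neg_neg]
    · intro ε _
      have e : ∀ l, ((flip i).trans (flip k)) ε l = flip k (flip i ε) l := fun l => rfl
      rw [e, e, flip_ne hki.symm, flip_ne hkj.symm, flip_same, flip_ne hij.symm]
      push_cast
      ring
  rw [Finset.sum_neg_distrib] at h1
  omega

theorem evs_second (hn : 3 ≤ Fintype.card Y) :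
    ∑ ε ∈ evs Y, (sgs Finset.univ ε) ^ 2 = (evs Y).card * Fintype.card Y := by
  classical
  have h1 : ∀ ε : Y → ℤˣ, (sgs Finset.univ ε) ^ 2 =
      ∑ i, ∑ j, ((ε i : ℤˣ) : ℤ) * (ε j : ℤˣ) := by
    intro ε
    unfold sgs
    rw [sq, Finset.sum_mul_sum]
  rw [Finset.sum_congr rfl fun ε _ => h1 ε, Finset.sum_comm]
  have h2 : ∀ i : Y, ∑ ε ∈ evs Y, ∑ j, ((ε i : ℤˣ) : ℤ) * (ε j : ℤˣ) = (evs Y).card := by
    intro i
    rw [Finset.sum_comm, Finset.sum_eq_single_of_mem i (Finset.mem_univ i)]
    · rw [Finset.sum_congr rfl fun ε _ => units_sq (ε i), Finset.sum_const, nsmul_eq_mul, mul_one]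
    · intro j _ hj
      obtain ⟨k, hk⟩ : ∃ k, k ∉ ({i, j} : Finset Y) := by
        by_contra hcon
        push Not at hcon
        have h3 : (Finset.univ : Finset Y) ⊆ {i, j} := fun x _ => hcon x
        have h4 := Finset.card_le_card h3
        have h5 : ({i, j} : Finset Y).card ≤ 2 := Finset.card_le_two
        rw [Finset.card_univ] at h4
        omega
      rw [Finset.mem_insert, Finset.mem_singleton, not_or] at hk
      exact evs_pair hj.symm hk.1 hk.2
  rw [Finset.sum_congr rfl fun i _ => h2 i, Finset.sum_const, nsmul_eq_mul, Finset.card_univ]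
  ring

/-- **The whole set.** -/
theorem evs_univ (hn : 3 ≤ Fintype.card Y) :
    4 * ∑ ε ∈ evs Y, |sgs Finset.univ ε| ≤ (evs Y).card * (Fintype.card Y + 3) := by
  classical
  have hsec := evs_second hn
  have hc : (0 : ℤ) ≤ (evs Y).card := by positivity
  have hmod : ∀ ε ∈ evs Y, (4 : ℤ) ∣ sgs Finset.univ ε - Fintype.card Y := by
    intro ε hε
    have h := sgs_mod Finset.univ ε
    rw [mem_evs.1 hε, Finset.card_univ] at h
    push_cast at h
    simpa using h
  rcases Nat.even_or_odd (Fintype.card Y) with h | h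
  · obtain ⟨m, hm⟩ := h
    rcases Nat.even_or_odd m with h' | h'
    · -- divisible by four
      obtain ⟨l, hl⟩ := h'
      have h1 : 4 * ∑ ε ∈ evs Y, |sgs Finset.univ ε| ≤ ∑ ε ∈ evs Y, (sgs Finset.univ ε) ^ 2 := by
        rw [Finset.mul_sum]
        refine Finset.sum_le_sum fun ε hε => ?_
        obtain ⟨k, hk⟩ := hmod ε hε
        have h2 : sgs Finset.univ ε = 4 * (k + l) := by
          rw [hm, hl] at hk
          push_cast at hk
          linarith
        rw [h2, ← sq_abs, abs_mul]
        have h3 : |(4 : ℤ)| = 4 := rfl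
        rw [h3]
        rcases eq_or_ne (k + (l : ℤ)) 0 with h4 | h4
        · rw [h4]; simp
        · have h5 : 1 ≤ |k + (l : ℤ)| := Int.one_le_abs h4
          nlinarith
      rw [hsec] at h1
      linarith
    · -- congruent to two modulo four
      obtain ⟨l, hl⟩ := h'
      have h1 : 8 * ∑ ε ∈ evs Y, |sgs Finset.univ ε| ≤
          ∑ ε ∈ evs Y, ((sgs Finset.univ ε) ^ 2 + 12) := by
        rw [Finset.mul_sum]
        refine Finset.sum_le_sum fun ε hε => ?_
        obtain ⟨k, hk⟩ := hmod ε hε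
        have h2 : sgs Finset.univ ε = 4 * (k + l) + 2 := by
          rw [hm, hl] at hk
          push_cast at hk
          linarith
        rw [h2]
        set t : ℤ := k + l with ht
        rcases lt_trichotomy t 0 with h4 | h4 | h4
        · rw [abs_of_neg (by omega)]
          rcases eq_or_ne t (-1) with h5 | h5
          · rw [h5]; norm_num
          · have h6 : t ≤ -2 := by omega
            nlinarith
        · rw [h4]; norm_num
        · rw [abs_of_pos (by omega)]
          nlinarith
      rw [Finset.sum_add_distrib, hsec, Finset.sum_const, nsmul_eq_mul] at h1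
      have h6 : (6 : ℤ) ≤ Fintype.card Y := by
        have : 6 ≤ Fintype.card Y := by omega
        exact_mod_cast this
      nlinarith
  · have h1 : 4 * ∑ ε ∈ evs Y, |sgs Finset.univ ε| ≤
        ∑ ε ∈ evs Y, ((sgs Finset.univ ε) ^ 2 + 3) := by
      rw [Finset.mul_sum]
      refine Finset.sum_le_sum fun ε _ => odd_bound (odd_sgs ?_ ε)
      rw [Finset.card_univ]
      exact h
    rw [Finset.sum_add_distrib, hsec, Finset.sum_const, nsmul_eq_mul] at h1
    linarith

/-- **Mean values over the sign vectors with product `1`.** -/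
theorem evs_mean (hn : 3 ≤ Fintype.card Y) {T : Finset Y} (hT : T.Nonempty) {η : Y → ℤˣ}
    (hη : T = Finset.univ → ∏ i, η i = 1) :
    4 * ∑ ε ∈ evs Y, |sgs T (fun i => η i * ε i)| ≤ (evs Y).card * (T.card + 3) := by
  classical
  have : Nonempty Y := ⟨hT.choose⟩
  by_cases h : T = Finset.univ
  · have h1 := hη h
    subst h
    rw [evs_twist h1, Finset.card_univ]
    exact evs_univ hn
  · obtain ⟨a, ha⟩ : ∃ a, a ∉ T := by
      by_contra hcon
      push Not at hcon
      exact h (Finset.eq_univ_iff_forall.2 hcon)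
    have h1 := evs_proper ha η
    have h2 := first_moment hT
    have h3 := card_evs (Y := Y)
    rw [← h1, ← h3] at h2
    linarith

end

end Pool.Agent.TH322.BC
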