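import Pool.Agent.W353.NF.Corr

/-! Quadratic symbols of the extensions of a homomorphism to a prime field, and the action of a
Frobenius element on the square roots of the conjugates. -/

set_option autoImplicit false
set_option linter.unusedSectionVars false

namespace Pool.Agent.TH322.BC

open NumberField IsDedekindDomain Filter Pool.Agent.W401.Cheb Pool.Agent.W353.NF
open Pool.Agent.W353.TP (HX sysH push qh qh_abs qh_eq res push_abs_le)
open scoped Pointwise

section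
variable {K F : Type} [Field K] [NumberField K] [Field F] [NumberField F] [Algebra K F]

open Classical in
/-- the sign of `σ` on the square roots of `i D` -/
noncomputable def sg (D : F) (σ : GK K) (i : F →ₐ[K] AlgebraicClosure K) : ℤˣ :=
  if ∀ s : AlgebraicClosure K, s ^ 2 = i D → σ s = s then 1 else -1

theorem sg_spec {D : F} {σ : GK K} {i : F →ₐ[K] AlgebraicClosure K} (hi : act K F σ i = i)
    {s : AlgebraicClosure K} (hs : s ^ 2 = i D) : σ s = ((sg D σ i : ℤˣ) : ℤ) * s := by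
  have hpm : ∀ t : AlgebraicClosure K, t ^ 2 = i D → σ t = t ∨ σ t = -t := by
    intro t ht
    have h1 : (σ t) ^ 2 = t ^ 2 := by
      rw [← map_pow, ht]
      have h2 : act K F σ i D = σ (i D) := rfl
      rw [← h2, hi]
    exact sq_eq_sq_iff_eq_or_eq_neg.1 h1
  unfold sg
  split_ifs with h
  · rw [h s hs]
    simp
  · push Not at h
    obtain ⟨t, ht, hne⟩ := h
    have h3 := (hpm t ht).resolve_left hne
    rcases sq_eq_sq_iff_eq_or_eq_neg.1 (hs.trans ht.symm) with h4 | h4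
    · rw [h4, h3]
      simp
    · rw [h4, map_neg, h3]
      simp

theorem sg_unique {D : F} (hD : D ≠ 0) {σ : GK K} {i : F →ₐ[K] AlgebraicClosure K}
    (hi : act K F σ i = i) {s : AlgebraicClosure K} (hs : s ^ 2 = i D) {u : ℤˣ}
    (h : σ s = ((u : ℤˣ) : ℤ) * s) : sg D σ i = u := by
  have h1 := sg_spec hi hs
  have hs0 : s ≠ 0 := by
    intro h0
    rw [h0, zero_pow two_ne_zero] at hs
    exact hD ((map_eq_zero i).1 hs.symm)
  rw [h1] at h
  have h2 := mul_right_cancel₀ hs0 h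
  have h3 : ((sg D σ i : ℤˣ) : ℤ) = (u : ℤ) := by exact_mod_cast h2
  exact Units.ext h3

/-- The number of fixed embeddings, counted with signs. -/
noncomputable def chi (K : Type) {F : Type} [Field K] [NumberField K] [Field F] [NumberField F]
    [Algebra K F] (D : F) (σ : GK K) : ℤ := by
  classical
  exact ∑ i ∈ (Finset.univ.filter fun i : F →ₐ[K] AlgebraicClosure K => act K F σ i = i),
    ((sg D σ i : ℤˣ) : ℤ)

/-- **The extensions of a homomorphism and the fixed embeddings.** -/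
theorem ext_equiv (v : HeightOneSpectrum (𝓞 K)) (e : 𝓞 K)
    (he : ∀ Q : Ideal (𝓞 (AlgebraicClosure K)),
      algebraMap (𝓞 K) (𝓞 (AlgebraicClosure K)) e ∉ Q →
      ∀ i j : F →ₐ[K] AlgebraicClosure K, (∀ a : 𝓞 F, oi i a - oi j a ∈ Q) → i = j)
    (hev : e ∉ v.asIdeal) (σ : GK K) (hσ : IsFrob v σ) {p : ℕ} [Fact p.Prime]
    (φ : 𝓞 K →+* ZMod p) (hφ : RingHom.ker φ = v.asIdeal) :
    ∃ (Q : Ideal (𝓞 (AlgebraicClosure K))) (_ : Q.IsMaximal)
      (ι : ZMod p →+* (𝓞 (AlgebraicClosure K) ⧸ Q))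
      (T : {i : F →ₐ[K] AlgebraicClosure K //
        (σ : AlgebraicClosure K →ₐ[K] AlgebraicClosure K).comp i = i} →
        {ψ : 𝓞 F →+* ZMod p // ψ.comp (algebraMap (𝓞 K) (𝓞 F)) = φ}),
      Q.comap (algebraMap (𝓞 K) (𝓞 (AlgebraicClosure K))) = v.asIdeal ∧
      (∀ x : 𝓞 (AlgebraicClosure K), σ • x - x ^ p ∈ Q) ∧ Function.Bijective T ∧
      ∀ i a, ι ((T i).1 a) = Ideal.Quotient.mk Q (oi i.1 a) := by
  classical
  obtain ⟨Q, hQm, hQv, hQ⟩ := hσ
  rw [absNorm_ker φ hφ] at hQ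
  let _ : Field (𝓞 (AlgebraicClosure K) ⧸ Q) := Ideal.Quotient.field Q
  have hpv : (p : 𝓞 K) ∈ v.asIdeal := by
    rw [← hφ, RingHom.mem_ker, map_natCast]
    exact ZMod.natCast_self _
  have hpQ : (p : 𝓞 (AlgebraicClosure K)) ∈ Q := by
    rw [← hQv, Ideal.mem_comap, map_natCast] at hpv
    exact hpv
  have hpk : ((p : ℕ) : 𝓞 (AlgebraicClosure K) ⧸ Q) = 0 := by
    have := Ideal.Quotient.eq_zero_iff_mem.2 hpQ
    simpa using this
  have hchar : CharP (𝓞 (AlgebraicClosure K) ⧸ Q) p := by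
    obtain ⟨c, hc⟩ := CharP.exists (𝓞 (AlgebraicClosure K) ⧸ Q)
    have h1 : c ∣ p := (CharP.cast_eq_zero_iff (𝓞 (AlgebraicClosure K) ⧸ Q) c p).1 hpk
    rcases (Nat.dvd_prime (Fact.out : p.Prime)).1 h1 with h2 | h2
    · subst h2
      exact absurd rfl (CharP.char_ne_one (𝓞 (AlgebraicClosure K) ⧸ Q) 1)
    · rwa [h2] at hc
  set ι : ZMod p →+* (𝓞 (AlgebraicClosure K) ⧸ Q) :=
    ZMod.castHom (m := p) dvd_rfl (𝓞 (AlgebraicClosure K) ⧸ Q) with hι
  have hmem : ∀ x : 𝓞 (AlgebraicClosure K) ⧸ Q, x ^ p = x → ∃ y, ι y = x := by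
    intro x hx
    have h1 := (Subfield.mem_bot_iff_pow_eq_self (𝓞 (AlgebraicClosure K) ⧸ Q) p).2 hx
    rw [← ZMod.fieldRange_castHom_eq_bot p] at h1
    exact h1
  have hinj : Function.Injective ι := ι.injective
  let red : (F →ₐ[K] AlgebraicClosure K) → 𝓞 F →+* (𝓞 (AlgebraicClosure K) ⧸ Q) := fun i =>
    (Ideal.Quotient.mk Q).comp (oi i)
  have hred : ∀ i a, red i a = Ideal.Quotient.mk Q (oi i a) := fun i a => rfl
  have hredinj : ∀ i j, (∀ a, red i a = red j a) → i = j := by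
    intro i j h
    refine he Q (fun h1 => hev ?_) i j fun a => ?_
    · rw [← hQv]
      exact h1
    · rw [← Ideal.Quotient.mk_eq_mk_iff_sub_mem]
      exact h a
  have hfrob : ∀ i a, (red i a) ^ p =
      red ((σ : AlgebraicClosure K →ₐ[K] AlgebraicClosure K).comp i) a := by
    intro i a
    rw [hred, hred, ← map_pow, Ideal.Quotient.mk_eq_mk_iff_sub_mem, ← smul_oi]
    have := Q.neg_mem (hQ (oi i a))
    rwa [neg_sub] at this
  have hK : ∀ i (a : 𝓞 K), red i (algebraMap (𝓞 K) (𝓞 F) a) = ι (φ a) := by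
    intro i a
    obtain ⟨n, hn⟩ := ZMod.intCast_surjective (φ a)
    have h1 : a - (n : 𝓞 K) ∈ v.asIdeal := by
      rw [← hφ, RingHom.mem_ker, map_sub, map_intCast, hn, sub_self]
    rw [← hQv, Ideal.mem_comap] at h1
    rw [hred, oi_alg, ← hn, map_intCast, ← map_intCast (Ideal.Quotient.mk Q),
      Ideal.Quotient.mk_eq_mk_iff_sub_mem]
    rwa [map_sub, map_intCast] at h1
  have hex : ∀ i : {i : F →ₐ[K] AlgebraicClosure K //
      (σ : AlgebraicClosure K →ₐ[K] AlgebraicClosure K).comp i = i},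
      ∃ ψ : 𝓞 F →+* ZMod p, ∀ a, ι (ψ a) = red i.1 a := by
    rintro ⟨i, hi⟩
    have h1 : ∀ a, (red i a) ^ p = red i a := fun a => by rw [hfrob, hi]
    choose f hf using fun a => hmem _ (h1 a)
    refine ⟨{ toFun := f, map_one' := ?_, map_mul' := ?_, map_zero' := ?_, map_add' := ?_ }, hf⟩
    · apply hinj
      rw [hf, map_one, map_one]
    · intro a b
      apply hinj
      rw [hf, map_mul, map_mul, hf, hf]
    · apply hinj
      rw [hf, map_zero, map_zero]
    · intro a b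
      apply hinj
      rw [hf, map_add, map_add, hf, hf]
  choose T hT using hex
  refine ⟨Q, hQm, ι, fun i => ⟨T i, ?_⟩, hQv, hQ, ⟨?_, ?_⟩, fun i a => hT i a⟩
  · ext a
    apply hinj
    rw [RingHom.comp_apply, hT, hK]
  · rintro i j hij
    apply Subtype.ext
    refine hredinj _ _ fun a => ?_
    rw [← hT, ← hT]
    have h1 : T i = T j := congrArg Subtype.val hij
    rw [h1]
  · rintro ⟨ψ, hψ⟩
    obtain ⟨i, hi⟩ := exists_emb hQm hQv hφ ψ hψ
    have hred2 : ∀ a, red i a = ι (ψ a) := by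
      intro a
      obtain ⟨n, hn⟩ := ZMod.intCast_surjective (ψ a)
      have h1 : oi i (a - (n : 𝓞 F)) ∈ Q := by
        rw [hi, map_sub, map_intCast, hn, sub_self]
      have h2 : red i (a - (n : 𝓞 F)) = 0 := Ideal.Quotient.eq_zero_iff_mem.2 h1
      rw [map_sub, map_intCast, sub_eq_zero] at h2
      rw [h2, ← hn, map_intCast]
    have hfix : (σ : AlgebraicClosure K →ₐ[K] AlgebraicClosure K).comp i = i := by
      refine hredinj _ _ fun a => ?_
      rw [← hfrob, hred2, ← map_pow, ZMod.pow_card]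
    refine ⟨⟨i, hfix⟩, ?_⟩
    apply Subtype.ext
    ext a
    apply hinj
    change ι (T ⟨i, hfix⟩ a) = ι (ψ a)
    rw [hT, ← hred2]

/-- a nonzero element of `𝓞_K` divisible by all conjugates of `D` -/
theorem exists_mult {D : 𝓞 F} (hD : D ≠ 0) : ∃ e : 𝓞 K, e ≠ 0 ∧
    ∀ Q : Ideal (𝓞 (AlgebraicClosure K)), algebraMap (𝓞 K) (𝓞 (AlgebraicClosure K)) e ∉ Q →
      ∀ i : F →ₐ[K] AlgebraicClosure K, oi i D ∉ Q := by
  classical
  have h : ∀ i : F →ₐ[K] AlgebraicClosure K, ∃ e : 𝓞 K, e ≠ 0 ∧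
      oi i D ∣ algebraMap (𝓞 K) (𝓞 (AlgebraicClosure K)) e := by
    intro i
    have h2 : oi i D ≠ 0 := by
      intro h0
      apply hD
      apply RingOfIntegers.ext
      have h1 := congrArg (fun z : 𝓞 (AlgebraicClosure K) => (z : AlgebraicClosure K)) h0
      have h3 : i (D : F) = 0 := h1
      rw [map_eq_zero] at h3
      rw [h3]
      rfl
    have h3 : IsAlgebraic (𝓞 K) (oi i D) :=
      (Algebra.IsIntegral.isIntegral (R := 𝓞 K) (oi i D)).isAlgebraic
    obtain ⟨r, hr, hd⟩ := h3.exists_nonzero_dvd (mem_nonZeroDivisors_of_ne_zero h2)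
    exact ⟨r, hr, hd⟩
  choose e he h using h
  refine ⟨∏ x, e x, Finset.prod_ne_zero_iff.2 fun x _ => he x, fun Q hQ i hi => hQ ?_⟩
  refine Q.mem_of_dvd ?_ hi
  exact (h i).trans (map_dvd _ (Finset.dvd_prod_of_mem e (Finset.mem_univ i)))

/-- an integral square root -/
theorem exists_root (i : F →ₐ[K] AlgebraicClosure K) (D : 𝓞 F) :
    ∃ s : 𝓞 (AlgebraicClosure K), s ^ 2 = oi i D := by
  obtain ⟨t, ht⟩ := IsAlgClosed.exists_pow_nat_eq (i (D : F)) (n := 2) (by norm_num)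
  have h1 : IsIntegral ℤ t := by
    have h2 : IsIntegral ℤ (t ^ 2) := by
      rw [ht]
      exact (oi i D).2
    exact h2.of_pow (by norm_num)
  exact ⟨⟨t, h1⟩, RingOfIntegers.ext ht⟩

/-- **The quadratic symbol is the sign of Frobenius.** -/
theorem qh_sg (D : 𝓞 F) {p : Nat.Primes} (hp : (p : ℕ) ≠ 2) [Fact (p : ℕ).Prime]
    {σ : GK K} {Q : Ideal (𝓞 (AlgebraicClosure K))} (hQm : Q.IsMaximal)
    (hQ : ∀ x : 𝓞 (AlgebraicClosure K), σ • x - x ^ (p : ℕ) ∈ Q)
    (h2Q : (2 : 𝓞 (AlgebraicClosure K)) ∉ Q)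
    {ι : ZMod (p : ℕ) →+* (𝓞 (AlgebraicClosure K) ⧸ Q)} {i : F →ₐ[K] AlgebraicClosure K}
    (hi : act K F σ i = i) {ψ : 𝓞 F →+* ZMod (p : ℕ)}
    (hψ : ι (ψ D) = Ideal.Quotient.mk Q (oi i D)) (hDQ : oi i D ∉ Q) :
    qh D ⟨p, ψ⟩ = (((sg (D : F) σ i : ℤˣ) : ℤ) : ℝ) := by
  classical
  let _ : Field (𝓞 (AlgebraicClosure K) ⧸ Q) := Ideal.Quotient.field Q
  obtain ⟨s, hs⟩ := exists_root (K := K) i D
  have hsF : (s : AlgebraicClosure K) ^ 2 = i (D : F) :=
    congrArg (fun z : 𝓞 (AlgebraicClosure K) => (z : AlgebraicClosure K)) hs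
  have hsQ : s ∉ Q := by
    intro h
    apply hDQ
    rw [← hs, sq]
    exact Q.mul_mem_left _ h
  have hx0 : ψ D ≠ 0 := by
    intro h
    rw [h, map_zero] at hψ
    exact hDQ (Ideal.Quotient.eq_zero_iff_mem.1 hψ.symm)
  have hodd : (p : ℕ) % 2 = 1 := (Nat.Prime.eq_two_or_odd p.2).resolve_left hp
  -- Euler's criterion
  have heul : ((quadraticChar (ZMod (p : ℕ)) (ψ D) : ℤ) : ZMod (p : ℕ)) =
      (ψ D) ^ ((p : ℕ) / 2) := by
    have := quadraticChar_eq_pow_of_char_ne_two' (F := ZMod (p : ℕ)) (by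
      rw [ZMod.ringChar_zmod_n]
      exact hp) (ψ D)
    rw [this, ZMod.card]
  have h1 : Ideal.Quotient.mk Q (s ^ (p : ℕ)) =
      Ideal.Quotient.mk Q s * ι (ψ D) ^ ((p : ℕ) / 2) := by
    have e1 : (p : ℕ) = 2 * ((p : ℕ) / 2) + 1 := by omega
    conv_lhs => rw [e1]
    rw [pow_succ, pow_mul, hs, map_mul, map_pow, ← hψ, mul_comm]
  have h2 : Ideal.Quotient.mk Q (σ • s) = Ideal.Quotient.mk Q (s ^ (p : ℕ)) :=
    Ideal.Quotient.mk_eq_mk_iff_sub_mem _ _ |>.2 (hQ s)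
  rw [h1, ← map_pow, ← heul, map_intCast] at h2
  have h3 : (σ • s : 𝓞 (AlgebraicClosure K)) =
      (((sg (D : F) σ i : ℤˣ) : ℤ) : 𝓞 (AlgebraicClosure K)) * s := by
    apply RingOfIntegers.ext
    have := sg_spec (D := (D : F)) hi hsF
    change σ (s : AlgebraicClosure K) = algebraMap (𝓞 (AlgebraicClosure K)) (AlgebraicClosure K)
      ((((sg (D : F) σ i : ℤˣ) : ℤ) : 𝓞 (AlgebraicClosure K)) * s)
    rw [map_mul, map_intCast]
    exact this
  rw [h3, map_mul, map_intCast, mul_comm] at h2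
  have hs0 : Ideal.Quotient.mk Q s ≠ 0 := fun h => hsQ (Ideal.Quotient.eq_zero_iff_mem.1 h)
  have h4 := mul_left_cancel₀ hs0 h2
  have h20 : (2 : 𝓞 (AlgebraicClosure K) ⧸ Q) ≠ 0 := by
    intro h
    apply h2Q
    apply Ideal.Quotient.eq_zero_iff_mem.1
    rw [map_ofNat]
    exact h
  rw [qh_eq]
  have h5 : quadraticChar (ZMod (p : ℕ)) (ψ D) = ((sg (D : F) σ i : ℤˣ) : ℤ) := by
    rcases Int.units_eq_one_or (sg (D : F) σ i) with h | h <;>
    rcases quadraticChar_dichotomy hx0 with h' | h'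
    · rw [h, h']; rfl
    · rw [h, h'] at h4
      push_cast at h4
      exfalso
      apply h20
      linear_combination h4
    · rw [h, h'] at h4
      push_cast at h4
      exfalso
      apply h20
      linear_combination -h4
    · rw [h, h']; rfl
  exact_mod_cast h5

variable (K) in
/-- **The signed number of fixed embeddings and the sum of the quadratic symbols.** -/
theorem push_chi {D : 𝓞 F} (hD : D ≠ 0) : ∃ S : Finset (HeightOneSpectrum (𝓞 K)),
    ∀ x : HX K, vx x ∉ S → ∀ σ : GK K, IsFrob (vx x) σ →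
      push K (qh D) x = chi K (D : F) σ := by
  classical
  obtain ⟨e, he, h⟩ := separate_all K F
  obtain ⟨e', he', h'⟩ := exists_mult (K := K) hD
  have h20 : (2 : 𝓞 K) ≠ 0 := by norm_num
  have hfin := Pool.Agent.H341R2.EC.finite_mem (K := K) (mul_ne_zero (mul_ne_zero he he') h20)
  refine ⟨hfin.toFinset, fun x hx σ hσ => ?_⟩
  rw [Set.Finite.mem_toFinset, Set.mem_ofPred_eq] at hx
  have : Fact (x.1 : ℕ).Prime := ⟨x.1.2⟩
  have hx1 : e ∉ (vx x).asIdeal := fun h => hx (Ideal.mul_mem_right _ _ (Ideal.mul_mem_right _ _ h))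
  have hx2 : e' ∉ (vx x).asIdeal := fun h => hx (Ideal.mul_mem_right _ _ (Ideal.mul_mem_left _ _ h))
  have hx3 : (2 : 𝓞 K) ∉ (vx x).asIdeal := fun h => hx (Ideal.mul_mem_left _ _ h)
  obtain ⟨Q, hQm, ι, T, hQv, hQ, hT, hιT⟩ := ext_equiv (F := F) (vx x) e h hx1 σ hσ x.2
    (vx_asIdeal x).symm
  have hp2 : (x.1 : ℕ) ≠ 2 := by
    intro h2
    apply hx3
    rw [vx_asIdeal, RingHom.mem_ker, map_ofNat]
    have : ((2 : ℕ) : ZMod (x.1 : ℕ)) = 0 := by
      rw [← h2]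
      exact ZMod.natCast_self _
    exact_mod_cast this
  have h2Q : (2 : 𝓞 (AlgebraicClosure K)) ∉ Q := by
    intro h2
    apply hx3
    rw [← hQv, Ideal.mem_comap, map_ofNat]
    exact h2
  have h3Q : algebraMap (𝓞 K) (𝓞 (AlgebraicClosure K)) e' ∉ Q := by
    intro h2
    apply hx2
    rw [← hQv]
    exact h2
  have e1 : push K (qh D) x = ∑ ψ : {ψ : 𝓞 F →+* ZMod (x.1 : ℕ) //
      ψ.comp (algebraMap (𝓞 K) (𝓞 F)) = x.2}, qh D ⟨x.1, ψ.1⟩ := by
    unfold push
    exact Finset.sum_subtype _ (fun ψ => by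
      rw [Finset.mem_filter]
      exact ⟨fun h => h.2, fun h => ⟨Finset.mem_univ _, h⟩⟩) _
  have e2 : (chi K (D : F) σ : ℝ) = ∑ i : {i : F →ₐ[K] AlgebraicClosure K //
      (σ : AlgebraicClosure K →ₐ[K] AlgebraicClosure K).comp i = i},
      (((sg (D : F) σ i.1 : ℤˣ) : ℤ) : ℝ) := by
    unfold chi
    push_cast
    exact Finset.sum_subtype _ (fun i => by
      rw [Finset.mem_filter]
      exact ⟨fun h => h.2, fun h => ⟨Finset.mem_univ _, h⟩⟩) _
  rw [e1, e2]
  symm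
  refine Fintype.sum_bijective T hT _ _ fun i => ?_
  exact (qh_sg D hp2 hQm hQ h2Q i.2 (hιT i D) (h' Q h3Q i.1)).symm

end

end Pool.Agent.TH322.BC
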