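import Pool.Agent.TH322.BC.Odd
import Pool.Agent.TH322.BC.Defs
import Pool.Agent.W353.NF.EC

/-! The edge of the L-functions of the quadratic twists of an elliptic curve over extension fields. -/

set_option autoImplicit false
open Classical

namespace Pool.Agent.TH322.BC.Edge

open NumberField IsDedekindDomain Filter Topology
open Pool.Agent.W353.EF (perm derangements)

section
set_option linter.unusedSectionVars false
open Pool.Agent.TH322.BC Pool.Agent.W353.NF Pool.Agent.W353.AB Pool.Agent.W401.Cheb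

variable {K F : Type} [Field K] [NumberField K] [Field F] [NumberField F] [Algebra K F]

theorem character_eq {D : F} (hD : D ≠ 0) (σ : Gal(AlgebraicClosure K/K)) :
    character (K := K) D σ = chi K D σ := by
  have hsub : ∀ i : F →ₐ[K] AlgebraicClosure K, act K F σ i = i →
      ((∀ s : AlgebraicClosure K, s ^ 2 = i D → σ s = s) ↔ sg D σ i = 1) ∧
      ((∀ s : AlgebraicClosure K, s ^ 2 = i D → σ s = -s) ↔ sg D σ i = -1) := by
    intro i hi
    obtain ⟨s, hs⟩ := exists_sqrt i D
    have h1 := sg_spec hi hs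
    have hs0 : s ≠ 0 := by
      intro h0
      rw [h0, zero_pow two_ne_zero] at hs
      exact hD ((map_eq_zero i).1 hs.symm)
    refine ⟨⟨fun h => ?_, fun h t ht => ?_⟩, ⟨fun h => ?_, fun h t ht => ?_⟩⟩
    · exact sg_unique hD hi hs (by rw [h s hs]; simp)
    · rw [sg_spec hi ht, h]; simp
    · exact sg_unique hD hi hs (by rw [h s hs]; simp)
    · rw [sg_spec hi ht, h]; simp
  have e1 : Nat.card {i : F →ₐ[K] AlgebraicClosure K // perm K F σ i = i ∧
      ∀ s : AlgebraicClosure K, s ^ 2 = i D → σ s = s} =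
      (Finset.univ.filter fun i : F →ₐ[K] AlgebraicClosure K =>
        act K F σ i = i ∧ sg D σ i = 1).card := by
    rw [Nat.card_eq_fintype_card, Fintype.card_subtype]
    congr 1
    ext i
    rw [Finset.mem_filter, Finset.mem_filter]
    refine and_congr_right fun _ => ?_
    change (act K F σ i = i ∧ _) ↔ _
    exact and_congr_right fun h => (hsub i h).1
  have e2 : Nat.card {i : F →ₐ[K] AlgebraicClosure K // perm K F σ i = i ∧
      ∀ s : AlgebraicClosure K, s ^ 2 = i D → σ s = -s} =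
      (Finset.univ.filter fun i : F →ₐ[K] AlgebraicClosure K =>
        act K F σ i = i ∧ ¬ sg D σ i = 1).card := by
    rw [Nat.card_eq_fintype_card, Fintype.card_subtype]
    congr 1
    ext i
    rw [Finset.mem_filter, Finset.mem_filter]
    refine and_congr_right fun _ => ?_
    change (act K F σ i = i ∧ _) ↔ _
    refine and_congr_right fun h => ((hsub i h).2).trans ?_
    constructor
    · intro h1 h2
      rw [h2] at h1
      exact absurd h1 (by decide)
    · intro h1
      exact (Int.units_eq_one_or _).resolve_left h1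
  unfold character
  rw [e1, e2]
  unfold chi
  rw [← Finset.sum_filter_add_sum_filter_not
    (Finset.univ.filter fun i : F →ₐ[K] AlgebraicClosure K => act K F σ i = i)
    (fun i => sg D σ i = 1), Finset.filter_filter, Finset.filter_filter]
  have e3 : ∑ i ∈ Finset.univ.filter (fun i : F →ₐ[K] AlgebraicClosure K =>
      act K F σ i = i ∧ sg D σ i = 1), ((sg D σ i : ℤˣ) : ℤ) =
      (Finset.univ.filter fun i : F →ₐ[K] AlgebraicClosure K =>
        act K F σ i = i ∧ sg D σ i = 1).card := by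
    rw [Finset.sum_congr rfl (g := fun _ => (1 : ℤ)) (fun i hi => by
      rw [((Finset.mem_filter.1 hi).2).2]; rfl), Finset.sum_const, nsmul_eq_mul, mul_one]
  have e4 : ∑ i ∈ Finset.univ.filter (fun i : F →ₐ[K] AlgebraicClosure K =>
      act K F σ i = i ∧ ¬ sg D σ i = 1), ((sg D σ i : ℤˣ) : ℤ) =
      -((Finset.univ.filter fun i : F →ₐ[K] AlgebraicClosure K =>
        act K F σ i = i ∧ ¬ sg D σ i = 1).card : ℤ) := by
    rw [Finset.sum_congr rfl (g := fun _ => (-1 : ℤ)) (fun i hi => by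
      rw [(Int.units_eq_one_or _).resolve_left ((Finset.mem_filter.1 hi).2).2]; rfl),
      Finset.sum_const, nsmul_eq_mul]
    ring
  rw [e3, e4]
  ring

theorem kappa_eq (τ : ℝ) : kappa τ = kap τ := by
  unfold kappa kap
  congr

theorem derangements_eq : derangements K F = drg K F := rfl

theorem orders {V : HeightOneSpectrum (𝓞 F) → WeierstrassCurve (𝓞 F)} {τ : ℝ}
    (h : ∀ᶠ ε : ℝ in 𝓝[>] 0, LSeries V (3 / 2 + τ * Complex.I + ε) ≠ 0) {m : ℤ}
    (hm : HasOrder V τ m) : Tendsto (size V τ) (𝓝[>] 0) (𝓝 (-(m : ℝ))) := by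
  obtain ⟨Λ, h1, h2, h3⟩ := hm
  exact lim_order (L := LSeries V) h h1 h2 h3

theorem lim_abs_le {x : ℝ → ℝ} {a B : ℝ} (h : Tendsto x (𝓝[>] 0) (𝓝 a)) (hx : LimsupLE x B) :
    |a| ≤ B := by
  refine le_of_forall_pos_le_add fun η hη => ?_
  exact le_of_tendsto h.abs (hx η hη)

theorem LimsupLE.mono {x : ℝ → ℝ} {B C : ℝ} (h : LimsupLE x B) (hBC : B ≤ C) : LimsupLE x C :=
  fun η hη => (h η hη).mono fun _ hε => hε.trans (by linarith)

variable {E : WeierstrassCurve K} {l P Q : 𝓞 K} (hl : l ≠ 0)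
    (hP : (P : K) = (l : K) ^ 4 * E.c₄) (hQ : (Q : K) = (l : K) ^ 6 * E.c₆)
    (hD : P ^ 3 - Q ^ 2 ≠ 0)

include hl hP hQ hD in
theorem size_twist (X : TwistOver E F) (τ : ℝ) :
    (∀ᶠ ε : ℝ in 𝓝[>] 0, LSeries X.V (3 / 2 + τ * Complex.I + ε) ≠ 0) ∧
    (syE P Q).IsSize (F := F) (fun _ => X.D) τ (size X.V τ) :=
  size_E E hl hP hQ hD X.D_ne_zero X.V X.minimal τ

include hl hP hQ hD in
theorem size_base {V : HeightOneSpectrum (𝓞 F) → WeierstrassCurve (𝓞 F)}
    (hV : MinimalModels (E.map (algebraMap K F)) V) (τ : ℝ) :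
    (∀ᶠ ε : ℝ in 𝓝[>] 0, LSeries V (3 / 2 + τ * Complex.I + ε) ≠ 0) ∧
    (syE P Q).IsSize (F := F) (fun _ => 1) τ (size V τ) :=
  size_EF E hl hP hQ hD V hV τ

theorem syE_D (P Q : 𝓞 K) (D : 𝓞 F) : ∀ j ∈ (syE P Q).P, (syE P Q).D (fun _ => D) j = D := by
  intro j _
  have h1 : (syE P Q).D (fun _ => D) j = ∏ _i ∈ ({0} : Finset (Fin 1)), D := rfl
  rw [h1, Finset.prod_singleton]

theorem coe_ne {D : 𝓞 F} (h : D ≠ 0) : (D : F) ≠ 0 := fun h' => h (RingOfIntegers.ext h')

include hl hP hQ hD in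
theorem relations : Relations E := by
  intro ι _ F _ _ _ X U _ hU hker τ c
  have hfin : Finite (Gal(AlgebraicClosure K/K) ⧸ U) := Subgroup.quotient_finite_of_isOpen _ hU
  set M : ℝ := (Nat.card (Gal(AlgebraicClosure K/K) ⧸ U) : ℝ)⁻¹ *
          ∑ᶠ q : Gal(AlgebraicClosure K/K) ⧸ U,
            |∑ k, c k * (character (K := K) ((X k).D : F k) q.out : ℝ)| with hM
  have hMe : Pool.Agent.W353.L1.avR U
      (fun q => |∑ k, c k * (chi K ((X k).D : F k) q.out : ℝ)|) = M := by
    rw [hM]
    unfold Pool.Agent.W353.L1.avR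
    congr 1
    refine finsum_congr fun q => ?_
    simp only [character_eq (coe_ne (X _).D_ne_zero)]
  have h1 : LimsupLE (fun ε => ∑ k, c k * size (X k).V τ ε) (2 * (kappa τ * M)) := by
    intro η hη
    have h2 := ineqD (syE P Q) (syE_real P Q) U hU Finset.univ F (fun k => (X k).D)
      (fun k _ => (X k).D_ne_zero) (fun k _ => syE_D P Q (X k).D)
      (fun k _ u hu => hker k u hu) τ (fun k => size (X k).V τ)
      (fun k _ => (size_twist hl hP hQ hD (X k) τ).2) c hη
    rw [syE_b, hMe] at h2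
    rw [kappa_eq]
    exact h2
  refine ⟨h1, fun m hm => ?_⟩
  have h3 : Tendsto (fun ε => ∑ k, c k * size (X k).V τ ε) (𝓝[>] 0)
      (𝓝 (∑ k, c k * (-(m k : ℝ)))) :=
    tendsto_finsetSum _ fun k _ =>
      (orders (size_twist hl hP hQ hD (X k) τ).1 (hm k)).const_mul (c k)
  have h4 := lim_abs_le h3 h1
  have e : ∑ k, c k * (-(m k : ℝ)) = -∑ k, c k * (m k : ℝ) := by
    rw [← Finset.sum_neg_distrib]
    exact Finset.sum_congr rfl fun k _ => by ring
  rwa [e, abs_neg] at h4

include hl hP hQ hD in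
/-- one twist, with a bound for the mean value -/
theorem one_twist (X : TwistOver E F) (τ : ℝ) {A : ℝ}
    (hA : Pool.Agent.W353.L1.avR (kerD K (X.D : F)) (fun q => |(chi K (X.D : F) q.out : ℝ)|) ≤ A) :
    LimsupLE (size X.V τ) (2 * (kappa τ * A)) ∧
    ∀ m : ℤ, HasOrder X.V τ m → |(m : ℝ)| ≤ 2 * (kappa τ * A) := by
  have hU := kerD_open (K := K) (X.D : F)
  have hfin : Finite (Gal(AlgebraicClosure K/K) ⧸ kerD K (X.D : F)) :=
    Subgroup.quotient_finite_of_isOpen _ hU
  have h1 : LimsupLE (size X.V τ) (2 * (kappa τ * A)) := by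
    intro η hη
    have h2 := ineqD (syE P Q) (syE_real P Q) (kerD K (X.D : F)) hU (Finset.univ : Finset Unit)
      (fun _ => F) (fun _ => X.D) (fun _ _ => X.D_ne_zero) (fun _ _ => syE_D P Q X.D)
      (fun _ _ u hu => hu) τ (fun _ => size X.V τ)
      (fun _ _ => (size_twist hl hP hQ hD X τ).2) (fun _ => 1) hη
    refine h2.mono fun ε hε => ?_
    simp only [Finset.univ_unique, Finset.sum_singleton, one_mul] at hε
    rw [syE_b] at hε
    refine hε.trans ?_
    rw [kappa_eq]
    have := mul_le_mul_of_nonneg_left hA (kap_pos τ).le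
    linarith
  refine ⟨h1, fun m hm => ?_⟩
  have h4 := lim_abs_le (orders (size_twist hl hP hQ hD X τ).1 hm) h1
  rwa [abs_neg] at h4

include hl hP hQ hD in
theorem all_extensions : AllExtensions E := by
  intro F _ _ _ τ
  refine ⟨fun V V' hV hV' => ?_, fun X hX => ?_⟩
  · have hVK : MinimalModels (E.map (algebraMap K K)) V := by
      have : E.map (algebraMap K K) = E := E.map_id
      rwa [this]
    have s0 := size_base (F := K) hl hP hQ hD hVK τ
    have s1 := size_base (F := F) hl hP hQ hD hV' τ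
    have h1 : LimsupLE (fun ε => size V' τ ε - size V τ ε)
        (4 * (kappa τ * derangements K F)) := by
      intro η hη
      have h2 := ineq2 (syE P Q) (syE_real P Q) τ (size V τ) (size V' τ) s0.2 s1.2 hη
      refine h2.mono fun ε hε => ?_
      rw [syE_b] at hε
      rw [kappa_eq, derangements_eq]
      linarith
    refine ⟨h1, fun m m' hm hm' => ?_⟩
    have h4 := lim_abs_le ((orders s1.1 hm').sub (orders s0.1 hm)) h1
    have e : -(m' : ℝ) - -(m : ℝ) = -((m' : ℝ) - m) := by ring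
    rwa [e, abs_neg] at h4
  · exact one_twist hl hP hQ hD X τ (mean_twist (coe_ne X.D_ne_zero) hX)

theorem three_pi : 3 / Real.pi < 1 := by
  rw [div_lt_one Real.pi_pos]
  exact Real.pi_gt_three

include hl hP hQ hD in
theorem symmetric_base_change : SymmetricBaseChange E := by
  intro F _ _ _ hs hn V V' hV hV' τ
  obtain ⟨h1, h2⟩ := (all_extensions hl hP hQ hD F τ).1 V V' hV hV'
  have hd : derangements K F ≤ 3 / 8 := drg_le K F hs hn
  have hk : 0 < kappa τ := by
    rw [kappa_eq]
    exact kap_pos τ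
  have hb : 4 * (kappa τ * derangements K F) ≤ if τ = 0 then 3 / 2 else 3 / Real.pi := by
    have h3 : 4 * (kappa τ * derangements K F) ≤ 4 * (kappa τ * (3 / 8)) := by
      have := mul_le_mul_of_nonneg_left hd hk.le
      linarith
    refine h3.trans (le_of_eq ?_)
    unfold kappa
    split_ifs
    · norm_num
    · ring
  refine ⟨h1.mono hb, fun m m' hm hm' => ?_⟩
  have h4 := (h2 m m' hm hm').trans hb
  split_ifs with h0
  · rw [if_pos h0] at h4
    have h5 : |((m' - m : ℤ) : ℝ)| < 2 := by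
      push_cast
      linarith
    have h6 : |m' - m| < 2 := by exact_mod_cast h5
    omega
  · rw [if_neg h0] at h4
    have h5 : |((m' - m : ℤ) : ℝ)| < 1 := by
      push_cast
      linarith [three_pi]
    have h6 : |m' - m| < 1 := by exact_mod_cast h5
    rw [Int.abs_lt_one_iff] at h6
    omega

include hl hP hQ hD in
theorem symmetric_twists : SymmetricTwists E := by
  rintro F _ _ _ hs hn X ⟨a, b, hab⟩ τ
  obtain ⟨ε, hε, hne⟩ := exists_nonconst (K := K) hab
  obtain ⟨h1, h2⟩ := one_twist hl hP hQ hD X τ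
    (mean_sym (K := K) hs hn (coe_ne X.D_ne_zero) hε hne)
  have hb : 2 * (kappa τ * (3 / 4)) = if τ = 0 then 3 / 2 else 3 / Real.pi := by
    unfold kappa
    split_ifs
    · norm_num
    · ring
  rw [hb] at h1 h2
  refine ⟨h1, fun m hm => ?_⟩
  have h4 := h2 m hm
  split_ifs with h0
  · rw [if_pos h0] at h4
    have h5 : |((m : ℤ) : ℝ)| < 2 := by linarith
    have h6 : |m| < 2 := by exact_mod_cast h5
    omega
  · rw [if_neg h0] at h4
    have h5 : |((m : ℤ) : ℝ)| < 1 := by linarith [three_pi]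
    have h6 : |m| < 1 := by exact_mod_cast h5
    rwa [Int.abs_lt_one_iff] at h6

/-- the variable change between the twists by `e g²` and by `e` -/
theorem twist_sq (E' : WeierstrassCurve F) (e : F) {g : F} (hg : g ≠ 0) :
    ∃ C : WeierstrassCurve.VariableChange F, C • twist E' (e * g ^ 2) = twist E' e := by
  refine ⟨{ u := Units.mk0 g hg, r := 0, s := 0, t := 0 }, ?_⟩
  ext
  · simp [WeierstrassCurve.variableChange_a₁, twist]
  · simp [WeierstrassCurve.variableChange_a₂, twist]
  · simp [WeierstrassCurve.variableChange_a₃, twist]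
  · rw [WeierstrassCurve.variableChange_a₄]
    simp only [twist, Units.val_inv_eq_inv_val, Units.val_mk0]
    field_simp
    ring
  · rw [WeierstrassCurve.variableChange_a₆]
    simp only [twist, Units.val_inv_eq_inv_val, Units.val_mk0]
    field_simp
    ring

theorem minimal_smul {E' : WeierstrassCurve F} (C₀ : WeierstrassCurve.VariableChange F)
    {V : HeightOneSpectrum (𝓞 F) → WeierstrassCurve (𝓞 F)} (h : MinimalModels E' V) :
    MinimalModels (C₀ • E') V := by
  intro v
  refine ⟨(isModel_smul E' C₀ (V v)).2 (h v).1, fun W hW => ?_⟩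
  exact (h v).2 W ((isModel_smul E' C₀ W).1 hW)

theorem twist_map (E' : WeierstrassCurve K) (e : K) :
    (twist E' e).map (algebraMap K F) = twist (E'.map (algebraMap K F)) (algebraMap K F e) := by
  have h27 : algebraMap K F 27 = 27 := map_ofNat _ 27
  have h54 : algebraMap K F 54 = 54 := map_ofNat _ 54
  ext <;> simp [twist, WeierstrassCurve.map_c₄, WeierstrassCurve.map_c₆, h27, h54]

theorem short_disc (W : WeierstrassCurve K) (h1 : W.a₁ = 0) (h2 : W.a₂ = 0) (h3 : W.a₃ = 0) :
    W.Δ = -16 * (4 * W.a₄ ^ 3 + 27 * W.a₆ ^ 2) := by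
  rw [WeierstrassCurve.Δ, WeierstrassCurve.b₂, WeierstrassCurve.b₄, WeierstrassCurve.b₆,
    WeierstrassCurve.b₈, h1, h2, h3]
  ring

theorem twist_disc (E' : WeierstrassCurve K) (e : K) :
    (twist E' e).Δ = 6 ^ 12 * e ^ 6 * E'.Δ := by
  have h := E'.c_relation
  rw [short_disc (twist E' e) rfl rfl rfl]
  have h4 : (twist E' e).a₄ = -27 * e ^ 2 * E'.c₄ := rfl
  have h6 : (twist E' e).a₆ = -54 * e ^ 3 * E'.c₆ := rfl
  rw [h4, h6]
  linear_combination (-1259712 * e ^ 6) * h

theorem exists_int (e₀ : K) (he₀ : e₀ ≠ 0) : ∃ (b e : 𝓞 K), b ≠ 0 ∧ e ≠ 0 ∧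
    (e : K) = (b : K) ^ 2 * e₀ := by
  obtain ⟨⟨b, hb⟩, x, hx⟩ := IsLocalization.exists_integer_multiple
    (nonZeroDivisors (𝓞 K)) e₀
  have hb0 : b ≠ 0 := nonZeroDivisors.ne_zero hb
  have hx' : (x : K) = (b : K) * e₀ := by
    have h1 : algebraMap (𝓞 K) K x = b • e₀ := hx
    rw [Algebra.smul_def] at h1
    exact h1
  have hbK : (b : K) ≠ 0 := fun h => hb0 (RingOfIntegers.ext h)
  refine ⟨b, b * x, hb0, ?_, ?_⟩
  · refine mul_ne_zero hb0 fun h => ?_
    rw [h] at hx'
    exact mul_ne_zero hbK he₀ hx'.symm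
  · have h2 : ((b * x : 𝓞 K) : K) = (b : K) * (x : K) := map_mul (algebraMap (𝓞 K) K) b x
    rw [h2, hx']
    ring

include hl hP hQ hD in
theorem odd_degree (hE : E.IsElliptic) : OddDegree E := by
  intro F _ _ _ hs hn hodd X
  by_cases hsq : NonsquareProduct (K := K) (X.D : F)
  · left
    intro τ hτ
    obtain ⟨h1, h2⟩ := symmetric_twists hl hP hQ hD F hs hn X hsq τ
    rw [if_neg hτ] at h1
    refine ⟨h1, fun m hm => ?_⟩
    have h3 := h2 m hm
    rwa [if_neg hτ] at h3
  · right
    have hsq' : ∀ a b : F →ₐ[K] AlgebraicClosure K,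
        ∃ x ∈ Pool.Agent.W353.EF.closure K F, x ^ 2 = a (X.D : F) * b (X.D : F) := by
      intro a b
      by_contra h
      exact hsq ⟨a, b, h⟩
    obtain ⟨e₀, f₀, he₀, hf₀, hef⟩ :=
      square_class (K := K) hs hn hodd (coe_ne X.D_ne_zero) hsq'
    obtain ⟨b, e, hb, he, hbe⟩ := exists_int e₀ he₀
    have heK : (e : K) ≠ 0 := fun h => he (RingOfIntegers.ext h)
    have hbK : (b : K) ≠ 0 := fun h => hb (RingOfIntegers.ext h)
    have heF : algebraMap K F (e : K) ≠ 0 := (map_ne_zero _).2 heK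
    set f : F := algebraMap K F (b : K) * f₀ / algebraMap K F (e : K) with hf
    have hf0 : f ≠ 0 := div_ne_zero (mul_ne_zero ((map_ne_zero _).2 hbK) hf₀) heF
    have hDf : (X.D : F) = algebraMap K F (e : K) * f ^ 2 := by
      have h1 : (X.D : F) * algebraMap K F (e : K) = (algebraMap K F (b : K) * f₀) ^ 2 := by
        rw [hbe, map_mul, map_pow, mul_pow, ← hef]
        ring
      rw [hf, div_pow, ← h1]
      field_simp
    refine ⟨e, he, ⟨f, hDf⟩, fun V hV τ hτ => ?_⟩
    have hE' : (twist E (e : K)).IsElliptic := by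
      refine ⟨?_⟩
      rw [isUnit_iff_ne_zero, twist_disc]
      have h1 : E.Δ ≠ 0 := isUnit_iff_ne_zero.1 hE.isUnit
      exact mul_ne_zero (mul_ne_zero (by norm_num) (pow_ne_zero _ heK)) h1
    obtain ⟨l', P', Q', hl', hP', hQ', hD'⟩ :=
      Pool.Agent.H341R2.EC.exists_integral (twist E (e : K)) hE'
    obtain ⟨C, hC⟩ := twist_sq (E.map (algebraMap K F)) (algebraMap K F (e : K)) hf0
    have hmin : MinimalModels ((twist E (e : K)).map (algebraMap K F)) X.V := by
      have h1 := minimal_smul C X.minimal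
      rw [hDf, hC, ← twist_map] at h1
      exact h1
    obtain ⟨h1, h2⟩ := symmetric_base_change hl' hP' hQ' hD' F hs hn V X.V hV hmin τ
    rw [if_neg hτ] at h1
    refine ⟨h1, fun m m' hm hm' => ?_⟩
    have h3 := h2 m m' hm hm'
    rwa [if_neg hτ] at h3

end


theorem main_general (K : Type) [Field K] [NumberField K] (E : WeierstrassCurve K)
    (hE : E.IsElliptic) : Relations E ∧ AllExtensions E := by
  obtain ⟨l, P, Q, hl, hP, hQ, hD⟩ := Pool.Agent.H341R2.EC.exists_integral E hE
  exact ⟨relations hl hP hQ hD, all_extensions hl hP hQ hD⟩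

theorem main_symmetric (K : Type) [Field K] [NumberField K] (E : WeierstrassCurve K)
    (hE : E.IsElliptic) : SymmetricBaseChange E ∧ SymmetricTwists E ∧ OddDegree E := by
  obtain ⟨l, P, Q, hl, hP, hQ, hD⟩ := Pool.Agent.H341R2.EC.exists_integral E hE
  exact ⟨symmetric_base_change hl hP hQ hD, symmetric_twists hl hP hQ hD,
    odd_degree hl hP hQ hD hE⟩

end Pool.Agent.TH322.BC.Edge
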