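import Mathlib

/-! Mean values of absolute values of sums of independent signs. -/

set_option autoImplicit false
set_option linter.unusedSectionVars false

namespace Pool.Agent.TH322.BC

section
variable {Y : Type*} [Fintype Y] [DecidableEq Y]

/-- the sum of the signs over a set -/
def sgs (T : Finset Y) (ε : Y → ℤˣ) : ℤ := ∑ i ∈ T, ((ε i : ℤˣ) : ℤ)

theorem units_sq (u : ℤˣ) : (u : ℤ) * u = 1 := by
  rcases Int.units_eq_one_or u with h | h <;> rw [h] <;> rfl

theorem card_signs : (Fintype.card (Y → ℤˣ) : ℤ) = 2 ^ Fintype.card Y := by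
  rw [Fintype.card_fun]
  norm_num

/-- flipping one sign -/
def flip (a : Y) : (Y → ℤˣ) ≃ (Y → ℤˣ) where
  toFun ε := Function.update ε a (-ε a)
  invFun ε := Function.update ε a (-ε a)
  left_inv ε := by
    funext i
    by_cases h : i = a
    · subst h; simp
    · simp [h]
  right_inv ε := by
    funext i
    by_cases h : i = a
    · subst h; simp
    · simp [h]

theorem flip_same (a : Y) (ε : Y → ℤˣ) : flip a ε a = -ε a := by simp [flip]

theorem flip_ne {a i : Y} (h : i ≠ a) (ε : Y → ℤˣ) : flip a ε i = ε i := by simp [flip, h]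

theorem sum_pair_zero {i j : Y} (h : i ≠ j) : ∑ ε : Y → ℤˣ, ((ε i : ℤˣ) : ℤ) * (ε j : ℤˣ) = 0 := by
  have h1 : ∑ ε : Y → ℤˣ, ((ε i : ℤˣ) : ℤ) * (ε j : ℤˣ) =
      ∑ ε : Y → ℤˣ, -(((ε i : ℤˣ) : ℤ) * (ε j : ℤˣ)) := by
    rw [← Equiv.sum_comp (flip i)]
    refine Finset.sum_congr rfl fun ε _ => ?_
    rw [flip_same, flip_ne h.symm]
    push_cast
    ring
  rw [Finset.sum_neg_distrib] at h1
  omega

theorem second_moment (T : Finset Y) :
    ∑ ε : Y → ℤˣ, (sgs T ε) ^ 2 = 2 ^ Fintype.card Y * T.card := by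
  have h1 : ∀ ε : Y → ℤˣ, (sgs T ε) ^ 2 = ∑ i ∈ T, ∑ j ∈ T, ((ε i : ℤˣ) : ℤ) * (ε j : ℤˣ) := by
    intro ε
    unfold sgs
    rw [sq, Finset.sum_mul_sum]
  rw [Finset.sum_congr rfl fun ε _ => h1 ε, Finset.sum_comm]
  have h2 : ∀ i ∈ T, ∑ ε : Y → ℤˣ, ∑ j ∈ T, ((ε i : ℤˣ) : ℤ) * (ε j : ℤˣ) =
      2 ^ Fintype.card Y := by
    intro i hi
    rw [Finset.sum_comm, Finset.sum_eq_single_of_mem i hi]
    · rw [Finset.sum_congr rfl fun ε _ => units_sq (ε i), Finset.sum_const, nsmul_eq_mul, mul_one,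
        Finset.card_univ, card_signs]
    · intro j _ hj
      exact sum_pair_zero hj.symm
  rw [Finset.sum_congr rfl h2, Finset.sum_const, nsmul_eq_mul]
  ring

theorem odd_sgs {T : Finset Y} (hT : Odd T.card) (ε : Y → ℤˣ) : Odd (sgs T ε) := by
  classical
  have h1 : ∀ S : Finset Y, (2 : ℤ) ∣ sgs S ε - S.card := by
    intro S
    induction S using Finset.induction_on with
    | empty => simp [sgs]
    | insert a S ha ih =>
      have e : sgs (insert a S) ε = (ε a : ℤ) + sgs S ε := by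
        unfold sgs
        rw [Finset.sum_insert ha]
      rw [e, Finset.card_insert_of_notMem ha]
      push_cast
      have h2 : (2 : ℤ) ∣ (ε a : ℤ) - 1 := by
        rcases Int.units_eq_one_or (ε a) with h | h <;> rw [h] <;> decide
      have h3 : (ε a : ℤ) + sgs S ε - (S.card + 1) = ((ε a : ℤ) - 1) + (sgs S ε - S.card) := by
        ring
      rw [h3]
      exact dvd_add h2 ih
  obtain ⟨k, hk⟩ := h1 T
  obtain ⟨l, hl⟩ := hT
  refine ⟨k + l, ?_⟩
  rw [hl] at hk
  push_cast at hk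
  linarith

theorem odd_bound {z : ℤ} (hz : Odd z) : 4 * |z| ≤ z ^ 2 + 3 := by
  obtain ⟨k, hk⟩ := hz
  have h1 : |z| ^ 2 = z ^ 2 := sq_abs z
  have h3 : (0 : ℤ) ≤ |z| := abs_nonneg z
  have h2 : Odd |z| := by
    rw [odd_abs]
    exact ⟨k, hk⟩
  obtain ⟨l, hl⟩ := h2
  have h4 : 0 ≤ l := by omega
  rw [← h1, hl]
  nlinarith [mul_nonneg h4 h4, sq_nonneg (l - 1), mul_self_nonneg (l : ℤ),
    (by
      rcases lt_or_ge l 1 with h | h
      · have : l = 0 := by omega
        rw [this]; norm_num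
      · nlinarith : (0 : ℤ) ≤ l * (l - 1))]

theorem first_moment_odd {T : Finset Y} (hT : Odd T.card) :
    4 * ∑ ε : Y → ℤˣ, |sgs T ε| ≤ 2 ^ Fintype.card Y * (T.card + 3) := by
  have h1 : 4 * ∑ ε : Y → ℤˣ, |sgs T ε| ≤ ∑ ε : Y → ℤˣ, ((sgs T ε) ^ 2 + 3) := by
    rw [Finset.mul_sum]
    exact Finset.sum_le_sum fun ε _ => odd_bound (odd_sgs hT ε)
  rw [Finset.sum_add_distrib, second_moment, Finset.sum_const, nsmul_eq_mul, Finset.card_univ,
    card_signs] at h1
  linarith

theorem sgs_insert {T : Finset Y} {a : Y} (ha : a ∉ T) (ε : Y → ℤˣ) :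
    sgs (insert a T) ε = (ε a : ℤ) + sgs T ε := by
  unfold sgs
  rw [Finset.sum_insert ha]

theorem sgs_flip {T : Finset Y} {a : Y} (ha : a ∉ T) (ε : Y → ℤˣ) :
    sgs T (flip a ε) = sgs T ε := by
  unfold sgs
  refine Finset.sum_congr rfl fun i hi => ?_
  have h : i ≠ a := fun h => ha (by rw [← h]; exact hi)
  rw [flip_ne h]

theorem even_odd {T : Finset Y} (hT : Odd T.card) {a : Y} (ha : a ∉ T) :
    ∑ ε : Y → ℤˣ, |sgs (insert a T) ε| = ∑ ε : Y → ℤˣ, |sgs T ε| := by
  have h1 : ∑ ε : Y → ℤˣ, |sgs (insert a T) ε| = ∑ ε : Y → ℤˣ, |sgs T ε - (ε a : ℤ)| := by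
    rw [← Equiv.sum_comp (flip a)]
    refine Finset.sum_congr rfl fun ε _ => ?_
    rw [sgs_insert ha, sgs_flip ha, flip_same]
    push_cast
    congr 1
    ring
  have h2 : ∑ ε : Y → ℤˣ, (|sgs (insert a T) ε| + |sgs T ε - (ε a : ℤ)|) =
      ∑ ε : Y → ℤˣ, (|sgs T ε| + |sgs T ε|) := by
    refine Finset.sum_congr rfl fun ε _ => ?_
    rw [sgs_insert ha]
    have h3 := odd_sgs hT ε
    have h4 : sgs T ε ≠ 0 := by
      intro h
      rw [h] at h3
      exact absurd h3 (by decide)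
    rcases Int.units_eq_one_or (ε a) with h | h
    · rw [h]
      push_cast
      rcases lt_or_gt_of_ne h4 with h5 | h5
      · rw [abs_of_neg h5, abs_of_nonpos (by omega), abs_of_neg (by omega)]
        ring
      · rw [abs_of_pos h5, abs_of_pos (by omega), abs_of_nonneg (by omega)]
        ring
    · rw [h]
      push_cast
      rcases lt_or_gt_of_ne h4 with h5 | h5
      · rw [abs_of_neg h5, abs_of_neg (by omega), abs_of_nonpos (by omega)]
        ring
      · rw [abs_of_pos h5, abs_of_nonneg (by omega), abs_of_pos (by omega)]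
        ring
  rw [Finset.sum_add_distrib, Finset.sum_add_distrib, ← h1] at h2
  omega

/-- **The mean value of the absolute value of a sum of `t ≥ 1` independent signs is at most
`(t + 3)/4`.** -/
theorem first_moment {T : Finset Y} (hT : T.Nonempty) :
    4 * ∑ ε : Y → ℤˣ, |sgs T ε| ≤ 2 ^ Fintype.card Y * (T.card + 3) := by
  rcases Nat.even_or_odd T.card with h | h
  · obtain ⟨a, ha⟩ := hT
    have hc : (T.erase a).card + 1 = T.card := Finset.card_erase_add_one ha
    have ho : Odd (T.erase a).card := by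
      rw [← hc] at h
      exact (Nat.even_add_one.1 h) |> Nat.not_even_iff_odd.1
    have h1 := even_odd ho (Finset.notMem_erase a T)
    rw [Finset.insert_erase ha] at h1
    rw [h1]
    refine (first_moment_odd ho).trans ?_
    refine mul_le_mul_of_nonneg_left ?_ (by positivity)
    have : ((T.erase a).card : ℤ) + 1 = T.card := by exact_mod_cast hc
    linarith
  · exact first_moment_odd h

theorem first_moment_empty : ∑ ε : Y → ℤˣ, |sgs (∅ : Finset Y) ε| = 0 := by
  simp [sgs]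

/-- independence of fixed signs -/
theorem sum_twist (T : Finset Y) (η : Y → ℤˣ) :
    ∑ ε : Y → ℤˣ, |sgs T (fun i => η i * ε i)| = ∑ ε : Y → ℤˣ, |sgs T ε| :=
  Equiv.sum_comp (Equiv.mulLeft η) fun ε => |sgs T ε|

end

end Pool.Agent.TH322.BC
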