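import Pool.Agent.TH322.BC.Size
import Pool.Agent.TH322.BC.Signs

/-! Mean values of the signed number of fixed embeddings. -/

set_option autoImplicit false
set_option linter.unusedSectionVars false

namespace Pool.Agent.TH322.BC

open Complex Filter Topology ComplexConjugate NumberField IsDedekindDomain
  Pool.Agent.W401.Cheb Pool.Agent.W353.L1 Pool.Agent.W353.NF

section
variable {K : Type} [Field K] [NumberField K]

/-- a function that is invariant under a subgroup -/
theorem out_eq {U : Subgroup (GK K)} {f : GK K → ℝ} (hf : ∀ g, ∀ u ∈ U, f (g * u) = f g)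
    {q : GK K ⧸ U} {g : GK K} (h : (QuotientGroup.mk g : GK K ⧸ U) = q) : f q.out = f g := by
  have h2 : (QuotientGroup.mk g : GK K ⧸ U) = QuotientGroup.mk q.out := by
    rw [QuotientGroup.out_eq', h]
  rw [QuotientGroup.eq] at h2
  have h3 := hf g _ h2
  rwa [mul_inv_cancel_left] at h3

/-- translation invariance of mean values -/
theorem avR_mul (U : Subgroup (GK K)) [U.Normal] {f : GK K → ℝ}
    (hf : ∀ g, ∀ u ∈ U, f (g * u) = f g) (h : GK K) :
    avR U (fun q => f (q.out * h)) = avR U (fun q => f q.out) := by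
  unfold avR
  congr 1
  refine finsum_eq_of_bijective (fun q => q * (QuotientGroup.mk h : GK K ⧸ U))
    (Equiv.mulRight _).bijective fun q => ?_
  symm
  refine out_eq hf ?_
  rw [QuotientGroup.mk_mul, QuotientGroup.out_eq']

/-- comparison of the mean values for two subgroups -/
theorem avR_mono {U V : Subgroup (GK K)} (hUV : U ≤ V) [Finite (GK K ⧸ U)] [Finite (GK K ⧸ V)]
    {f : GK K → ℝ} (hf : ∀ g, ∀ u ∈ V, f (g * u) = f g) :
    avR U (fun q => f q.out) = avR V (fun q => f q.out) := by
  classical
  let _ : Fintype (GK K ⧸ U) := Fintype.ofFinite _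
  let _ : Fintype (GK K ⧸ V) := Fintype.ofFinite _
  have hfin : Finite (V ⧸ U.subgroupOf V) := by
    have e := Subgroup.quotientEquivProdOfLE hUV
    have : Finite ((GK K ⧸ V) × (V ⧸ U.subgroupOf V)) := Finite.of_equiv _ e
    exact Finite.prod_right (GK K ⧸ V)
  let _ : Fintype (V ⧸ U.subgroupOf V) := Fintype.ofFinite _
  have e := Subgroup.quotientEquivProdOfLE hUV
  have hc : Nat.card (GK K ⧸ U) = Nat.card (GK K ⧸ V) * Nat.card (V ⧸ U.subgroupOf V) := by
    rw [Nat.card_congr e, Nat.card_prod]
  have hpos : (0 : ℝ) < Nat.card (V ⧸ U.subgroupOf V) := by exact_mod_cast Nat.card_pos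
  -- fibres
  have hsum : ∑ q : GK K ⧸ U, f q.out = ∑ r : GK K ⧸ V, ∑ _t : V ⧸ U.subgroupOf V, f r.out := by
    rw [← Fintype.sum_prod_type' (f := fun (r : GK K ⧸ V) (_ : V ⧸ U.subgroupOf V) => f r.out)]
    refine Fintype.sum_equiv (Subgroup.quotientEquivProdOfLE hUV) _ _ fun q => ?_
    have h1 : ((Subgroup.quotientEquivProdOfLE hUV) q).1 =
        (QuotientGroup.mk q.out : GK K ⧸ V) := by
      conv_lhs => rw [← QuotientGroup.out_eq' q]
      rfl
    rw [h1]
    exact (out_eq hf rfl).symm
  unfold avR
  rw [finsum_eq_sum_of_fintype, finsum_eq_sum_of_fintype, hsum]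
  simp only [Finset.sum_const, Finset.card_univ, nsmul_eq_mul]
  rw [← Finset.mul_sum, hc, ← Nat.card_eq_fintype_card]
  push_cast
  field_simp

theorem avR_add (U : Subgroup (GK K)) [Finite (GK K ⧸ U)] (f g : GK K ⧸ U → ℝ) :
    avR U (fun q => f q + g q) = avR U f + avR U g := by
  classical
  let _ : Fintype (GK K ⧸ U) := Fintype.ofFinite _
  unfold avR
  rw [finsum_eq_sum_of_fintype, finsum_eq_sum_of_fintype, finsum_eq_sum_of_fintype,
    Finset.sum_add_distrib]
  ring

theorem avR_one (U : Subgroup (GK K)) [Finite (GK K ⧸ U)] (c : ℝ) :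
    avR U (fun _ => c) = c := by
  classical
  let _ : Fintype (GK K ⧸ U) := Fintype.ofFinite _
  unfold avR
  rw [finsum_eq_sum_of_fintype, Finset.sum_const, nsmul_eq_mul, Finset.card_univ,
    ← Nat.card_eq_fintype_card, ← mul_assoc, inv_mul_cancel₀, one_mul]
  exact_mod_cast Nat.card_pos.ne'

theorem avR_mono_le (U : Subgroup (GK K)) [Finite (GK K ⧸ U)] {f g : GK K ⧸ U → ℝ}
    (h : ∀ q, f q ≤ g q) : avR U f ≤ avR U g := by
  classical
  let _ : Fintype (GK K ⧸ U) := Fintype.ofFinite _
  unfold avR
  rw [finsum_eq_sum_of_fintype, finsum_eq_sum_of_fintype]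
  exact mul_le_mul_of_nonneg_left (Finset.sum_le_sum fun q _ => h q) (by positivity)

theorem avR_sum (U : Subgroup (GK K)) [Finite (GK K ⧸ U)] {ι : Type*} (S : Finset ι)
    (f : ι → GK K ⧸ U → ℝ) : avR U (fun q => ∑ i ∈ S, f i q) = ∑ i ∈ S, avR U (f i) := by
  classical
  let _ : Fintype (GK K ⧸ U) := Fintype.ofFinite _
  unfold avR
  simp only [finsum_eq_sum_of_fintype]
  rw [Finset.sum_comm, Finset.mul_sum]

end

section
variable {K F : Type} [Field K] [NumberField K] [Field F] [NumberField F] [Algebra K F]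

/-- the group of all automorphisms acting trivially on the embeddings of `F` and on the square roots
of the conjugates of `D` -/
noncomputable def kerD (K : Type) {F : Type} [Field K] [NumberField K] [Field F] [NumberField F]
    [Algebra K F] (D : F) : Subgroup (GK K) where
  carrier := {u | act K F u = 1 ∧
    ∀ i : F →ₐ[K] AlgebraicClosure K, ∀ s : AlgebraicClosure K, s ^ 2 = i D → u s = s}
  one_mem' := ⟨map_one _, fun _ _ _ => rfl⟩
  mul_mem' := by
    rintro a b ⟨ha, ha'⟩ ⟨hb, hb'⟩
    refine ⟨by rw [map_mul, ha, hb, mul_one], fun i s hs => ?_⟩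
    change a (b s) = s
    rw [hb' i s hs, ha' i s hs]
  inv_mem' := by
    rintro a ⟨ha, ha'⟩
    refine ⟨by rw [map_inv, ha, inv_one], fun i s hs => ?_⟩
    have h1 : a⁻¹ (a s) = s := AlgEquiv.symm_apply_apply a s
    rwa [ha' i s hs] at h1

theorem mem_kerD {D : F} {u : GK K} : u ∈ kerD K D ↔ act K F u = 1 ∧
    ∀ i : F →ₐ[K] AlgebraicClosure K, ∀ s : AlgebraicClosure K, s ^ 2 = i D → u s = s := Iff.rfl

theorem kerD_le (D : F) : kerD K D ≤ (act K F).ker := fun _ hu => hu.1

instance kerD_normal (D : F) : (kerD K D).Normal := by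
  refine ⟨?_⟩
  rintro n ⟨hn, hn'⟩ g
  refine ⟨by rw [map_mul, map_mul, hn, mul_one, map_inv, mul_inv_cancel], fun i s hs => ?_⟩
  have hs' : (g⁻¹ s) ^ 2 = (act K F g⁻¹ i) D := by
    rw [← map_pow, hs]
    rfl
  change g (n (g⁻¹ s)) = s
  rw [hn' _ _ hs']
  exact AlgEquiv.apply_symm_apply g s

theorem kerD_open (D : F) : IsOpen ((kerD K D : Subgroup (GK K)) : Set (GK K)) := by
  classical
  choose s hs using fun i : F →ₐ[K] AlgebraicClosure K => exists_sqrt i D
  have h1 : ((kerD K D : Subgroup (GK K)) : Set (GK K)) =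
      ((act K F).ker : Set (GK K)) ∩
      ⋂ i : F →ₐ[K] AlgebraicClosure K,
        ((IntermediateField.adjoin K {s i}).fixingSubgroup : Set (GK K)) := by
    ext σ
    rw [SetLike.mem_coe, mem_kerD, Set.mem_inter_iff, SetLike.mem_coe, MonoidHom.mem_ker,
      Set.mem_iInter]
    refine and_congr_right fun _ => ⟨fun h i => ?_, fun h i t ht => ?_⟩
    · rw [SetLike.mem_coe, IntermediateField.mem_fixingSubgroup_iff]
      intro x hx
      have h2 : (σ : AlgebraicClosure K →ₐ[K] AlgebraicClosure K).comp
          (IntermediateField.adjoin K {s i}).val = (IntermediateField.adjoin K {s i}).val := by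
        refine IntermediateField.adjoin_algHom_ext K ?_
        intro y hy
        have hy' : y = s i := hy
        subst hy'
        exact h i _ (hs i)
      exact DFunLike.congr_fun h2 ⟨x, hx⟩
    · have h2 := h i
      rw [SetLike.mem_coe, IntermediateField.mem_fixingSubgroup_iff] at h2
      have h3 : σ (s i) = s i := h2 _ (IntermediateField.mem_adjoin_simple_self K (s i))
      rcases sq_eq_sq_iff_eq_or_eq_neg.1 (ht.trans (hs i).symm) with h4 | h4
      · rw [h4, h3]
      · rw [h4, map_neg, h3]
  rw [h1]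
  refine (ker_act_open K F).inter (isOpen_iInter_of_finite fun i => ?_)
  have hfd : FiniteDimensional K (IntermediateField.adjoin K {s i}) :=
    IntermediateField.adjoin.finiteDimensional (Algebra.IsIntegral.isIntegral (s i))
  exact IntermediateField.fixingSubgroup_isOpen _

/-- All changes of the signs of the square roots of the conjugates of `D` occur for automorphisms
fixing the conjugates of `F`. -/
def AllSigns (K : Type) {F : Type} [Field K] [NumberField K] [Field F] [NumberField F]
    [Algebra K F] (D : F) : Prop :=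
  ∀ ε : (F →ₐ[K] AlgebraicClosure K) → ℤˣ, ∃ h : GK K, act K F h = 1 ∧
    ∀ i, ∀ s : AlgebraicClosure K, s ^ 2 = i D → h s = ((ε i : ℤˣ) : ℤ) * s

/-- **The mean value of the absolute value for independent signs.** -/
theorem mean_twist {D : F} (hD : D ≠ 0) (hG : AllSigns K D) :
    avR (kerD K D) (fun q => |(chi K D q.out : ℝ)|) ≤ 1 - 3 / 4 * drg K F := by
  classical
  have hfinU : Finite (GK K ⧸ kerD K D) := Subgroup.quotient_finite_of_isOpen _ (kerD_open D)
  have hfinV : Finite (GK K ⧸ (act K F).ker) :=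
    Subgroup.quotient_finite_of_isOpen _ (ker_act_open K F)
  unfold AllSigns at hG
  set Y := (F →ₐ[K] AlgebraicClosure K) with hY
  choose h h1 h2 using hG
  set n := Fintype.card Y with hn
  set fx : GK K → Finset Y := fun σ => Finset.univ.filter fun i => act K F σ i = i with hfx
  have hinv : ∀ g, ∀ u ∈ kerD K D, |(chi K D (g * u) : ℝ)| = |(chi K D g : ℝ)| := by
    intro g u hu
    rw [chi_mul_ker hD g u hu.1 hu.2]
  -- averaging over the signs
  have e1 : (2 : ℝ) ^ n * avR (kerD K D) (fun q => |(chi K D q.out : ℝ)|) =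
      avR (kerD K D) (fun q => ∑ ε : Y → ℤˣ, |(chi K D (q.out * h ε) : ℝ)|) := by
    rw [avR_sum, Finset.sum_congr rfl fun ε _ => avR_mul (kerD K D)
      (f := fun g => |(chi K D g : ℝ)|) hinv (h ε), Finset.sum_const, nsmul_eq_mul,
      Finset.card_univ]
    congr 1
    have := card_signs (Y := Y)
    exact_mod_cast this.symm
  have e2 : ∀ σ : GK K, ∑ ε : Y → ℤˣ, |(chi K D (σ * h ε) : ℝ)| =
      ((∑ ε : Y → ℤˣ, |sgs (fx σ) ε| : ℤ) : ℝ) := by
    intro σ
    rw [← sum_twist (fx σ) (fun i => sg D σ i)]
    push_cast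
    refine Finset.sum_congr rfl fun ε _ => ?_
    rw [chi_mul hD σ (h ε) (h1 ε) ε (h2 ε)]
    unfold sgs
    push_cast
    rfl
  have e3 : ∀ σ : GK K, ((∑ ε : Y → ℤˣ, |sgs (fx σ) ε| : ℤ) : ℝ) ≤
      (2 : ℝ) ^ n * (1 - 3 / 8 * |(fixn K F σ : ℝ) - 1| - 5 / 8 * (1 - (fixn K F σ : ℝ))) := by
    intro σ
    have hc : fixn K F σ = (fx σ).card := by
      unfold fixn
      rw [Nat.card_eq_fintype_card, Fintype.card_subtype]
    rcases (fx σ).eq_empty_or_nonempty with h0 | h0
    · rw [h0, first_moment_empty, hc, h0, Finset.card_empty]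
      norm_num
    · have h3 := first_moment h0
      have h4 : (1 : ℝ) ≤ (fx σ).card := by exact_mod_cast h0.card_pos
      rw [hc, abs_of_nonneg (by linarith)]
      have h5 : (4 : ℝ) * ((∑ ε : Y → ℤˣ, |sgs (fx σ) ε| : ℤ) : ℝ) ≤
          2 ^ n * ((fx σ).card + 3) := by exact_mod_cast h3
      nlinarith [h5]
  have e4 : (2 : ℝ) ^ n * avR (kerD K D) (fun q => |(chi K D q.out : ℝ)|) ≤
      2 ^ n * (1 - 3 / 4 * drg K F) := by
    rw [e1]
    calc avR (kerD K D) (fun q => ∑ ε : Y → ℤˣ, |(chi K D (q.out * h ε) : ℝ)|)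
        ≤ avR (kerD K D) (fun q => (2 : ℝ) ^ n * (1 - 3 / 8 * |(fixn K F q.out : ℝ) - 1| -
            5 / 8 * (1 - (fixn K F q.out : ℝ)))) :=
          avR_mono_le _ fun q => by rw [e2]; exact e3 _
      _ = 2 ^ n * (1 - 3 / 4 * drg K F) := by
          rw [avR_const_mul]
          congr 1
          have hm1 := avR_mono (K := K) (kerD_le D) (f := fun g => |(fixn K F g : ℝ) - 1|)
            (fun g u hu => by
              have : fixn K F (g * u) = fixn K F g := fixn_mul_ker K F g u hu
              rw [this])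
          have hm2 := avR_mono (K := K) (kerD_le D) (f := fun g => (fixn K F g : ℝ))
            (fun g u hu => by
              have : fixn K F (g * u) = fixn K F g := fixn_mul_ker K F g u hu
              rw [this])
          have hm3 : avR (act K F).ker (fun q => (fixn K F q.out : ℝ)) = 1 := by
            have g1 := avR_ker (act K F) fun π => ((Nat.card {y // π y = y} : ℕ) : ℝ)
            have g2 : (fun q : GK K ⧸ (act K F).ker => (fixn K F q.out : ℝ)) = fun q =>
                ((Nat.card {y // act K F q.out y = y} : ℕ) : ℝ) := rfl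
            rw [g2, g1]
            have g3 := burnside (G := (act K F).range) (Y := F →ₐ[K] AlgebraicClosure K)
              (act K F).range.subtype (fun i j => by
                obtain ⟨σ, hσ⟩ := act_trans K F i j
                exact ⟨⟨act K F σ, ⟨σ, rfl⟩⟩, hσ⟩)
            have g4 : ∑ᶠ (h : (act K F).range), ((Nat.card {y // h.1 y = y} : ℕ) : ℝ) =
                Nat.card (act K F).range := g3
            rw [g4]
            exact inv_mul_cancel₀ (by exact_mod_cast Nat.card_pos.ne')
          rw [mean_drg] at hm1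
          rw [hm3] at hm2
          have g5 : (fun q : GK K ⧸ kerD K D => 1 - 3 / 8 * |(fixn K F q.out : ℝ) - 1| -
              5 / 8 * (1 - (fixn K F q.out : ℝ))) = fun q =>
              (3 / 8 : ℝ) + ((-(3 / 8)) * |(fixn K F q.out : ℝ) - 1| +
                5 / 8 * (fixn K F q.out : ℝ)) := by
            funext q
            ring
          rw [g5, avR_add, avR_add, avR_one, avR_const_mul, avR_const_mul, hm1, hm2]
          ring
  exact le_of_mul_le_mul_left e4 (by positivity)

/-- bound for the number of derangements from below -/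
theorem numDerangements_ge {n : ℕ} (hn : 2 ≤ n) : n.factorial ≤ 3 * numDerangements n := by
  have h4 : ∀ m : ℕ, (m + 4).factorial + 3 ≤ 3 * numDerangements (m + 4) := by
    intro m
    induction m with
    | zero => decide
    | succ m ih =>
      have h1 := numDerangements_succ (m + 4)
      have h2 : (m + 4 + 1).factorial = (m + 4 + 1) * (m + 4).factorial := Nat.factorial_succ _
      have h3 : m + 1 + 4 = m + 4 + 1 := by ring
      rw [h3, h2]
      have h4 : -1 ≤ -((-1 : ℤ) ^ (m + 4)) := by
        rcases neg_one_pow_eq_or ℤ (m + 4) with h | h <;> rw [h] <;> norm_num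
      have ih' : ((m + 4).factorial : ℤ) + 3 ≤ 3 * (numDerangements (m + 4) : ℤ) := by
        exact_mod_cast ih
      have h6 : ((m + 4 + 1 : ℕ) * (m + 4).factorial : ℤ) + 3 ≤
          3 * (numDerangements (m + 4 + 1) : ℤ) := by
        rw [h1]
        push_cast
        have h7 : (0 : ℤ) ≤ m := by positivity
        nlinarith
      exact_mod_cast h6
  rcases Nat.lt_or_ge n 4 with h | h
  · interval_cases n <;> decide
  · obtain ⟨m, rfl⟩ := Nat.exists_eq_add_of_le h
    have := h4 m
    rw [add_comm 4 m]
    omega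

/-- the proportion of the derangements if all permutations occur, from below -/
theorem derangement_prop_ge {G Y : Type*} [Group G] [Finite G] [Finite Y]
    (a : G →* Equiv.Perm Y) (hs : Function.Surjective a) (hn : 2 ≤ Nat.card Y) :
    1 / 3 ≤ (Nat.card {g : G // ∀ y, a g y ≠ y} : ℝ) / Nat.card G := by
  classical
  let _ : Fintype G := Fintype.ofFinite G
  let _ : Fintype Y := Fintype.ofFinite Y
  have hker : ∀ π : Equiv.Perm Y, Nat.card {g : G // a g = π} = Nat.card a.ker := by
    intro π
    obtain ⟨g0, hg0⟩ := hs π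
    refine Nat.card_congr
      { toFun := fun g => ⟨g0⁻¹ * g.1, by
          rw [MonoidHom.mem_ker, map_mul, map_inv, hg0, g.2, inv_mul_cancel]⟩
        invFun := fun k => ⟨g0 * k.1, by
          rw [map_mul, hg0, (MonoidHom.mem_ker).1 k.2, mul_one]⟩
        left_inv := fun g => Subtype.ext (by simp)
        right_inv := fun k => Subtype.ext (by simp) }
  have h1 : Nat.card {g : G // ∀ y, a g y ≠ y} =
      Nat.card (derangements Y) * Nat.card a.ker := by
    rw [← Nat.card_prod]
    have e : {g : G // ∀ y, a g y ≠ y} ≃ Σ π : derangements Y, {g : G // a g = π.1} :=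
      { toFun := fun g => ⟨⟨a g.1, g.2⟩, ⟨g.1, rfl⟩⟩
        invFun := fun x => ⟨x.2.1, by
          intro y
          rw [x.2.2]
          exact x.1.2 y⟩
        left_inv := fun g => rfl
        right_inv := fun x => by
          rcases x with ⟨⟨π, hπ⟩, ⟨g, hg⟩⟩
          have hg' : a g = π := hg
          subst hg'
          rfl }
    rw [Nat.card_congr e, Nat.card_sigma, Finset.sum_congr rfl fun π _ => hker π.1,
      Finset.sum_const, Finset.card_univ, smul_eq_mul, Nat.card_prod, Nat.card_eq_fintype_card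
      (α := derangements Y)]
  have h2 : Nat.card G = (Nat.card Y).factorial * Nat.card a.ker := by
    have e : G ≃ Σ π : Equiv.Perm Y, {g : G // a g = π} :=
      { toFun := fun g => ⟨a g, ⟨g, rfl⟩⟩
        invFun := fun x => x.2.1
        left_inv := fun g => rfl
        right_inv := fun x => by
          rcases x with ⟨π, ⟨g, hg⟩⟩
          subst hg
          rfl }
    rw [Nat.card_congr e, Nat.card_sigma, Finset.sum_congr rfl fun π _ => hker π,
      Finset.sum_const, Finset.card_univ, smul_eq_mul, Fintype.card_perm,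
      Nat.card_eq_fintype_card (α := Y)]
  have h3 : Nat.card (derangements Y) = numDerangements (Nat.card Y) := by
    rw [Nat.card_eq_fintype_card, card_derangements_eq_numDerangements, Nat.card_eq_fintype_card]
  have h4 := numDerangements_ge hn
  have hk : 0 < Nat.card a.ker := Nat.card_pos
  have hpos : (0 : ℝ) < Nat.card G := by exact_mod_cast Nat.card_pos
  rw [div_le_div_iff₀ (by norm_num) hpos, h1, h2, h3]
  have h5 : 1 * ((Nat.card Y).factorial * Nat.card a.ker) ≤
      numDerangements (Nat.card Y) * Nat.card a.ker * 3 := by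
    nlinarith
  exact_mod_cast h5

theorem drg_ge (hs : Function.Surjective (act K F)) (hn : 2 ≤ Module.finrank K F) :
    1 / 3 ≤ drg K F := by
  have h1 : Nat.card (F →ₐ[K] AlgebraicClosure K) = Module.finrank K F := by
    rw [Nat.card_eq_fintype_card]
    exact AlgHom.card K F (AlgebraicClosure K)
  refine derangement_prop_ge (G := (act K F).range) (Y := F →ₐ[K] AlgebraicClosure K)
    (act K F).range.subtype (fun π => ?_) (by rw [h1]; exact hn)
  obtain ⟨σ, hσ⟩ := hs π
  exact ⟨⟨act K F σ, ⟨σ, rfl⟩⟩, hσ⟩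

end

end Pool.Agent.TH322.BC
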