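import Pool.Agent.TH322.BC.Sym
import Pool.Agent.W353.EF.Defs

/-! Square classes over fields with symmetric Galois group. -/

set_option autoImplicit false
set_option linter.unusedSectionVars false

namespace Pool.Agent.TH322.BC

open Complex Filter Topology ComplexConjugate NumberField IsDedekindDomain
  Pool.Agent.W401.Cheb Pool.Agent.W353.L1 Pool.Agent.W353.NF
open Pool.Agent.W353.EF (closure perm)

section
variable {K F : Type} [Field K] [NumberField K] [Field F] [NumberField F] [Algebra K F]

theorem perm_eq (σ : GK K) : perm K F σ = act K F σ := rfl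

/-- automorphisms acting trivially on the embeddings fix the closure -/
theorem fix_closure {g : GK K} (hg : act K F g = 1) {x : AlgebraicClosure K}
    (hx : x ∈ closure K F) : g x = x := by
  have h1 : closure K F ≤ IntermediateField.fixedField (act K F).ker := by
    unfold Pool.Agent.W353.EF.closure
    refine iSup_le fun i => ?_
    rintro _ ⟨y, rfl⟩
    rw [IntermediateField.mem_fixedField_iff]
    intro u hu
    have h2 : act K F u i = i := by rw [(MonoidHom.mem_ker).1 hu]; rfl
    exact DFunLike.congr_fun h2 y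
  have h2 := h1 hx
  rw [IntermediateField.mem_fixedField_iff] at h2
  exact h2 g hg

theorem mem_closure_emb (i : F →ₐ[K] AlgebraicClosure K) (x : F) : i x ∈ closure K F := by
  unfold Pool.Agent.W353.EF.closure
  exact (le_iSup (fun i : F →ₐ[K] AlgebraicClosure K => i.fieldRange) i) ⟨x, rfl⟩

/-- elements fixed by all automorphisms acting trivially on the embeddings -/
theorem mem_closure {x : AlgebraicClosure K} (h : ∀ g : GK K, act K F g = 1 → g x = x) :
    x ∈ closure K F := by
  rw [← InfiniteGalois.fixedField_fixingSubgroup (closure K F),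
    IntermediateField.mem_fixedField_iff]
  intro g hg
  refine h g (Equiv.ext fun i => AlgHom.ext fun y => ?_)
  rw [IntermediateField.mem_fixingSubgroup_iff] at hg
  exact hg _ (mem_closure_emb i y)

/-- If the product of two conjugates is not a square in the closure, the signs are not constant. -/
theorem exists_nonconst {D : F} {a b : F →ₐ[K] AlgebraicClosure K}
    (h : ¬ ∃ x ∈ closure K F, x ^ 2 = a D * b D) :
    ∃ ε : (F →ₐ[K] AlgebraicClosure K) → ℤˣ, IsSign K D ε ∧ ε a ≠ ε b := by
  obtain ⟨s, hs⟩ := exists_sqrt a D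
  obtain ⟨t, ht⟩ := exists_sqrt b D
  have h1 : s * t ∉ closure K F := fun hst => h ⟨s * t, hst, by rw [mul_pow, hs, ht]⟩
  have h2 : ∃ g : GK K, act K F g = 1 ∧ g (s * t) ≠ s * t := by
    by_contra hcon
    push Not at hcon
    exact h1 (mem_closure hcon)
  obtain ⟨g, hg, hne⟩ := h2
  have hfix : ∀ i : F →ₐ[K] AlgebraicClosure K, act K F g i = i := fun i => by rw [hg]; rfl
  refine ⟨fun i => sg D g i, ⟨g, hg, fun i s hs => sg_spec (hfix i) hs⟩, fun heq => hne ?_⟩
  have heq' : sg D g a = sg D g b := heq
  rw [map_mul, sg_spec (hfix a) hs, sg_spec (hfix b) ht, heq']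
  rcases Int.units_eq_one_or (sg D g b) with h' | h' <;> rw [h'] <;> simp

/-- the field fixed by the stabilizer of an embedding -/
theorem mem_range_emb (i₀ : F →ₐ[K] AlgebraicClosure K) {x : AlgebraicClosure K}
    (h : ∀ g : GK K, act K F g i₀ = i₀ → g x = x) : ∃ y : F, i₀ y = x := by
  have h1 : x ∈ i₀.fieldRange := by
    rw [← InfiniteGalois.fixedField_fixingSubgroup i₀.fieldRange,
      IntermediateField.mem_fixedField_iff]
    intro g hg
    refine h g (AlgHom.ext fun y => ?_)
    rw [IntermediateField.mem_fixingSubgroup_iff] at hg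
    exact hg _ ⟨y, rfl⟩
  obtain ⟨y, hy⟩ := h1
  exact ⟨y, hy⟩

variable (K F) in
open Classical in
/-- an element of the closure on which the Galois group acts by the sign of the permutation of the
embeddings -/
theorem exists_delta :
    ∃ δ : AlgebraicClosure K, δ ≠ 0 ∧
    ∀ g : GK K, g δ = ((Equiv.Perm.sign (act K F g) : ℤˣ) : ℤ) * δ := by
  obtain ⟨θ, hθ⟩ := Field.exists_primitive_element K F
  set Y := (F →ₐ[K] AlgebraicClosure K) with hY
  set n := Fintype.card Y with hn
  let e : Y ≃ Fin n := Fintype.equivFin Y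
  set v : Fin n → AlgebraicClosure K := fun k => (e.symm k) θ with hv
  have hinj : Function.Injective v := by
    intro k l hkl
    apply e.symm.injective
    have h1 : (e.symm k) θ = (e.symm l) θ := hkl
    refine AlgHom.ext fun x => ?_
    have hx : x ∈ IntermediateField.adjoin K {θ} := by
      rw [hθ]
      exact IntermediateField.mem_top
    have h2 : ((e.symm k).comp (IntermediateField.adjoin K {θ}).val) =
        ((e.symm l).comp (IntermediateField.adjoin K {θ}).val) := by
      refine IntermediateField.adjoin_algHom_ext K ?_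
      intro y hy
      have hy' : y = θ := hy
      subst hy'
      exact h1
    exact DFunLike.congr_fun h2 ⟨x, hx⟩
  refine ⟨(Matrix.vandermonde v).det, Matrix.det_vandermonde_ne_zero_iff.2 hinj, fun g => ?_⟩
  set π : Equiv.Perm (Fin n) := e.permCongr (act K F g) with hπ
  have h3 : g ((Matrix.vandermonde v).det) =
      (((Matrix.vandermonde v).map (g : AlgebraicClosure K → AlgebraicClosure K))).det := by
    have := (g : AlgebraicClosure K ≃ₐ[K] AlgebraicClosure K).toRingEquiv.toRingHom.map_det
      (Matrix.vandermonde v)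
    exact this
  have h4 : ((Matrix.vandermonde v).map (g : AlgebraicClosure K → AlgebraicClosure K)) =
      (Matrix.vandermonde v).submatrix π id := by
    ext k l
    rw [Matrix.map_apply, Matrix.submatrix_apply, Matrix.vandermonde_apply,
      Matrix.vandermonde_apply, map_pow]
    congr 1
    rw [hv]
    simp only
    have h5 : e.symm (π k) = act K F g (e.symm k) := by
      rw [hπ, Equiv.permCongr_apply, Equiv.symm_apply_apply]
    rw [h5]
    rfl
  have h6 : Equiv.Perm.sign π = Equiv.Perm.sign (act K F g) := by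
    rw [hπ, Equiv.Perm.sign_permCongr]
  rw [h3, h4, Matrix.det_permute, h6]

/-- **Square classes, odd degree.**  If all products of two conjugates of `D` are squares in the
closure, then `D` times an element of `K` is a square. -/
theorem square_class (hs : Function.Surjective (act K F)) (hn : 3 ≤ Module.finrank K F)
    (hodd : Odd (Module.finrank K F)) {D : F} (hD : D ≠ 0)
    (h : ∀ a b : F →ₐ[K] AlgebraicClosure K, ∃ x ∈ closure K F, x ^ 2 = a D * b D) :
    ∃ (e : K) (f : F), e ≠ 0 ∧ f ≠ 0 ∧ D * algebraMap K F e = f ^ 2 := by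
  classical
  set Y := (F →ₐ[K] AlgebraicClosure K) with hY
  have hcard : Fintype.card Y = Module.finrank K F := AlgHom.card K F (AlgebraicClosure K)
  let i₀ : Y := Classical.arbitrary _
  have hi₀D : i₀ D ≠ 0 := (map_ne_zero i₀).2 hD
  choose r hr hr2 using fun j : Y => h j i₀
  obtain ⟨k, hk⟩ := hodd
  have hcard' : (Finset.univ.erase i₀).card = 2 * k := by
    rw [Finset.card_erase_of_mem (Finset.mem_univ _), Finset.card_univ, hcard, hk]
    omega
  set R : AlgebraicClosure K := i₀ D * (∏ j ∈ Finset.univ.erase i₀, r j) / (i₀ D) ^ k with hR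
  have hRmem : R ∈ closure K F := by
    rw [hR]
    refine div_mem (mul_mem (mem_closure_emb i₀ D) (prod_mem fun j _ => hr j))
      (pow_mem (mem_closure_emb i₀ D) _)
  have hN : algebraMap K (AlgebraicClosure K) (Algebra.norm K D) = ∏ j : Y, j D :=
    Algebra.norm_eq_prod_embeddings K (AlgebraicClosure K) D
  have hN0 : Algebra.norm K D ≠ 0 := Algebra.norm_ne_zero_iff.2 hD
  have hR2 : R ^ 2 = i₀ D * algebraMap K (AlgebraicClosure K) (Algebra.norm K D) := by
    rw [hN, ← Finset.mul_prod_erase Finset.univ (fun j : Y => j D) (Finset.mem_univ i₀), hR,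
      div_pow, mul_pow, ← Finset.prod_pow, Finset.prod_congr rfl fun j _ => hr2 j,
      Finset.prod_mul_distrib, Finset.prod_const, hcard', ← pow_mul, mul_comm k 2]
    field_simp
  have hR0 : R ≠ 0 := by
    intro h0
    rw [h0, zero_pow two_ne_zero] at hR2
    exact mul_ne_zero hi₀D ((map_ne_zero _).2 hN0) hR2.symm
  -- the action of the stabilizer
  have hpm : ∀ g : GK K, act K F g i₀ = i₀ → g R = R ∨ g R = -R := by
    intro g hg
    refine sq_eq_sq_iff_eq_or_eq_neg.1 ?_
    rw [← map_pow, hR2, map_mul, AlgEquiv.commutes]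
    congr 1
    exact DFunLike.congr_fun hg D
  have hdep : ∀ g g' : GK K, act K F g = act K F g' → g R = g' R := by
    intro g g' hgg
    have h1 : act K F (g'⁻¹ * g) = 1 := by rw [map_mul, map_inv, hgg, inv_mul_cancel]
    have h2 : g'⁻¹ (g R) = R := fix_closure h1 hRmem
    have h3 : g' (g'⁻¹ (g R)) = g R := AlgEquiv.apply_symm_apply g' (g R)
    rw [h2] at h3
    exact h3.symm
  choose G hG using fun π : Equiv.Perm {j : Y // j ≠ i₀} => hs (Equiv.Perm.ofSubtype π)
  have hGi : ∀ π, act K F (G π) i₀ = i₀ := by
    intro π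
    rw [hG]
    exact Equiv.Perm.ofSubtype_apply_of_not_mem π (by simp)
  have hneR : -R ≠ R := by
    intro h1
    apply hR0
    have h2 : (2 : AlgebraicClosure K) * R = 0 := by linear_combination -h1
    exact (mul_eq_zero.1 h2).resolve_left two_ne_zero
  let s0 : Equiv.Perm {j : Y // j ≠ i₀} → ℤˣ := fun π => if G π R = R then 1 else -1
  have hs0 : ∀ π, G π R = ((s0 π : ℤˣ) : ℤ) * R := by
    intro π
    change G π R = (((if G π R = R then 1 else -1 : ℤˣ)) : ℤ) * R
    rcases hpm (G π) (hGi π) with h1 | h1
    · rw [if_pos h1]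
      simp [h1]
    · rw [if_neg (by rw [h1]; exact hneR), h1]
      simp
  have hcan : ∀ u u' : ℤˣ, ((u : ℤˣ) : ℤ) * R = ((u' : ℤˣ) : ℤ) * R → u = u' := by
    intro u u' huu
    have h1 := mul_right_cancel₀ hR0 huu
    have h2 : (u : ℤ) = (u' : ℤ) := by exact_mod_cast h1
    exact Units.ext h2
  let s : Equiv.Perm {j : Y // j ≠ i₀} →* ℤˣ :=
    { toFun := s0
      map_one' := by
        apply hcan
        rw [← hs0]
        have h1 := hdep (G 1) 1 (by rw [hG, map_one, map_one])
        rw [h1]
        change R = _
        simp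
      map_mul' := by
        intro π π'
        apply hcan
        rw [← hs0]
        have h1 := hdep (G (π * π')) (G π * G π') (by rw [hG, map_mul, map_mul, hG, hG])
        rw [h1]
        change G π (G π' R) = _
        rw [hs0 π', map_mul, map_intCast, hs0 π]
        push_cast
        ring }
  have hstab : ∀ g : GK K, act K F g i₀ = i₀ → ∃ π : Equiv.Perm {j : Y // j ≠ i₀},
      Equiv.Perm.ofSubtype π = act K F g := by
    intro g hg
    refine ⟨(act K F g).subtypePerm ?_, Equiv.Perm.ofSubtype_subtypePerm _ ?_⟩
    · intro x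
      rw [not_iff_not]
      constructor
      · intro hx
        exact (act K F g).injective (by rw [hx, hg])
      · intro hx
        rw [hx, hg]
    · intro x hx hxi
      apply hx
      rw [hxi, hg]
  have hgR : ∀ g : GK K, ∀ π : Equiv.Perm {j : Y // j ≠ i₀},
      Equiv.Perm.ofSubtype π = act K F g → g R = ((s π : ℤˣ) : ℤ) * R := by
    intro g π hπ
    rw [hdep g (G π) (by rw [hG, hπ])]
    exact hs0 π
  by_cases hsurj : Function.Surjective s
  · have hsign := Equiv.Perm.eq_sign_of_surjective_hom hsurj
    obtain ⟨δ, hδ0, hδ⟩ := exists_delta K F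
    have h1 : ∀ g : GK K, act K F g i₀ = i₀ → g (R * δ) = R * δ := by
      intro g hg
      obtain ⟨π, hπ⟩ := hstab g hg
      rw [map_mul, hgR g π hπ, hsign, hδ g, ← hπ, Equiv.Perm.sign_ofSubtype]
      rcases Int.units_eq_one_or (Equiv.Perm.sign π) with h' | h' <;> rw [h'] <;> simp
    obtain ⟨y, hy⟩ := mem_range_emb i₀ h1
    have h2 : δ ^ 2 ∈ Set.range (algebraMap K (AlgebraicClosure K)) := by
      rw [InfiniteGalois.mem_range_algebraMap_iff_fixed]
      intro g
      rw [map_pow, hδ g, mul_pow]
      rcases Int.units_eq_one_or (Equiv.Perm.sign (act K F g)) with h' | h' <;> rw [h'] <;> simp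
    obtain ⟨d, hd⟩ := h2
    refine ⟨Algebra.norm K D * d, y, mul_ne_zero hN0 ?_, ?_, ?_⟩
    · intro h3
      rw [h3, map_zero] at hd
      exact pow_ne_zero 2 hδ0 hd.symm
    · intro h3
      rw [h3, map_zero] at hy
      exact mul_ne_zero hR0 hδ0 hy.symm
    · apply i₀.injective
      change i₀ _ = i₀ _
      rw [map_pow, hy, mul_pow, hR2, ← hd, map_mul, AlgHom.commutes, map_mul]
      ring
  · have h1 : ∀ π, s π = 1 := by
      intro π
      by_contra h2
      apply hsurj
      have h3 : s π = -1 := (Int.units_eq_one_or _).resolve_left h2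
      intro u
      rcases Int.units_eq_one_or u with h' | h'
      · exact ⟨1, by rw [map_one, h']⟩
      · exact ⟨π, by rw [h3, h']⟩
    have h2 : ∀ g : GK K, act K F g i₀ = i₀ → g R = R := by
      intro g hg
      obtain ⟨π, hπ⟩ := hstab g hg
      rw [hgR g π hπ, h1]
      simp
    obtain ⟨y, hy⟩ := mem_range_emb i₀ h2
    refine ⟨Algebra.norm K D, y, hN0, ?_, ?_⟩
    · intro h3
      rw [h3, map_zero] at hy
      exact hR0 hy.symm
    · apply i₀.injective
      change i₀ _ = i₀ _
      rw [map_pow, hy, hR2, map_mul, AlgHom.commutes]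

end

end Pool.Agent.TH322.BC
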