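import Pool.Agent.TH322.BC.Loc
import Pool.Agent.W353.NF.Pair

/-! Sizes of the quadratic twists over number fields and signed numbers of fixed embeddings. -/

set_option autoImplicit false
set_option linter.unusedSectionVars false

namespace Pool.Agent.TH322.BC

open Complex Filter Topology ComplexConjugate NumberField IsDedekindDomain Asymptotics
  Pool.Agent.W401.Cheb Pool.Agent.W540.BE Pool.Agent.W353.L1 Pool.Agent.W353.NF
open Pool.Agent.W353.TP (HX sysH push push_abs_le qh qh_abs qh_eq res LL LL_tendsto E_H bdd_isLittleO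
  lam0_sub)
open Pool.Agent.W353.AB (Sy vq)
open Pool.Agent.H921R2.TatePole (kerPrime)
open Pool.Agent.H341R2 (lam lam_tendsto sysK)

section
variable {K F : Type} [Field K] [NumberField K] [Field F] [NumberField F] [Algebra K F]

theorem abs_chi_le_fixn (D : F) (σ : GK K) : |(chi K D σ : ℝ)| ≤ fixn K F σ := by
  classical
  unfold chi fixn
  push_cast
  refine (Finset.abs_sum_le_sum_abs _ _).trans ?_
  rw [Finset.sum_congr rfl (g := fun _ => (1 : ℝ)) (fun i _ => by
    rcases Int.units_eq_one_or (sg D σ i) with h | h <;> rw [h] <;> simp), Finset.sum_const,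
    nsmul_eq_mul, mul_one, Nat.card_eq_fintype_card, Fintype.card_subtype]

theorem abs_chi_le (D : F) (σ : GK K) : |(chi K D σ : ℝ)| ≤ Module.finrank ℚ F :=
  (abs_chi_le_fixn D σ).trans (fixn_le σ)

theorem sg_one (σ : GK K) (i : F →ₐ[K] AlgebraicClosure K) : sg (1 : F) σ i = 1 := by
  unfold sg
  rw [if_pos]
  intro s hs
  rw [map_one] at hs
  have hs1 : s ^ 2 = 1 ^ 2 := by rw [hs, one_pow]
  rcases sq_eq_sq_iff_eq_or_eq_neg.1 hs1 with h | h
  · rw [h, map_one]
  · rw [h, map_neg, map_one]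

theorem chi_one (σ : GK K) : chi K (1 : F) σ = fixn K F σ := by
  classical
  unfold chi fixn
  rw [Finset.sum_congr rfl (g := fun _ => (1 : ℤ)) (fun i _ => by rw [sg_one]; rfl),
    Finset.sum_const, nsmul_eq_mul, mul_one, Nat.card_eq_fintype_card, Fintype.card_subtype]

/-- **Sizes of the quadratic twists over `F` in terms of fixed embeddings.** -/
theorem size_chi (𝒮 : Sy K) (hreal : ∀ j ∈ 𝒮.P, ∀ x, (𝒮.T j x).im = 0) {D : 𝓞 F} (hD : D ≠ 0)
    (hSD : ∀ j ∈ 𝒮.P, 𝒮.D (fun _ => D) j = D)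
    (σ : HeightOneSpectrum (𝓞 K) → GK K) (hσ : ∀ v, IsFrob v (σ v)) {τ : ℝ} {X : ℝ → ℝ}
    (hX : 𝒮.IsSize (F := F) (fun _ => D) τ X) :
    SzH (TT 𝒮) (fun v => chi K (D : F) (σ v) * cz τ v) X := by
  classical
  obtain ⟨S, hS⟩ := push_chi K hD
  set n : ℝ := (Module.finrank ℚ F : ℝ) with hn
  set N : ℝ := ∑ j ∈ 𝒮.P, 𝒮.b j with hN
  have hN0 : 0 ≤ N := Finset.sum_nonneg fun j hj => 𝒮.hb j hj
  have hn0 : 0 ≤ n := by positivity
  -- the difference
  have hdiff : ∀ x : HX K, |TT 𝒮 x * (push K (qh D) x * cz τ (vx x)) -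
      TT 𝒮 x * (chi K (D : F) (σ (vx x)) * cz τ (vx x))| ≤
      (N * (2 * n)) * (if vx x ∈ S then 1 else 0) := by
    intro x
    by_cases h : vx x ∈ S
    · rw [if_pos h, mul_one, ← mul_sub, ← sub_mul, abs_mul, abs_mul]
      have h1 : |push K (qh D) x| ≤ n := by
        have := push_abs_le (K := K) (qh_abs D) x
        rwa [mul_one] at this
      have h2 : |(chi K (D : F) (σ (vx x)) : ℝ)| ≤ n := abs_chi_le _ _
      have h3 : |push K (qh D) x - (chi K (D : F) (σ (vx x)) : ℝ)| ≤ 2 * n := by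
        refine (abs_sub _ _).trans ?_
        linarith
      have h4 : |push K (qh D) x - (chi K (D : F) (σ (vx x)) : ℝ)| * |cz τ (vx x)| ≤
          2 * n * 1 := mul_le_mul h3 (abs_cz _ _) (abs_nonneg _) (by positivity)
      rw [mul_one] at h4
      exact mul_le_mul (abs_TT 𝒮 x) h4 (by positivity) hN0
    · rw [hS x h _ (hσ _), sub_self, abs_zero, if_neg h, mul_zero]
  obtain ⟨C, hC⟩ := EH_le (K := K)
    (φ := fun x => TT 𝒮 x * (push K (qh D) x * cz τ (vx x)) -
      TT 𝒮 x * (chi K (D : F) (σ (vx x)) * cz τ (vx x)))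
    (g := fun v => (N * (2 * n)) * (if v ∈ S then 1 else 0)) (B := N * (2 * n))
    (fun v => by
      split_ifs
      · rw [mul_one, abs_of_nonneg (by positivity)]
      · rw [mul_zero, abs_zero]; positivity) hdiff
  have hEP : ∀ ε : ℝ, 0 < ε → EP (nm K) ε (fun v => (N * (2 * n)) * (if v ∈ S then 1 else 0)) ≤
      S.card * (N * (2 * n)) := by
    intro ε hε
    refine (le_abs_self _).trans (EP_finsupp normSys S _ (fun v hv => ?_) _ (fun v => ?_) hε)
    · rw [if_neg hv, mul_zero]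
    · split_ifs
      · rw [mul_one, abs_of_nonneg (by positivity)]
      · rw [mul_zero, abs_zero]; positivity
  have o1 : (fun ε => (sysH K).E ε (fun x => TT 𝒮 x * (push K (qh D) x *
      cz τ (vx x)) - TT 𝒮 x * (chi K (D : F) (σ (vx x)) * cz τ (vx x)))) =o[𝓝[>] 0] LL := by
    refine bdd_isLittleO ⟨S.card * (N * (2 * n)) + C, ?_⟩
    filter_upwards [self_mem_nhdsWithin] with ε hε
    have h1 := hC ε hε
    have h2 := hEP ε hε
    exact h1.trans (add_le_add h2 (le_refl C))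
  unfold Sy.IsSize at hX
  unfold SzH
  refine (hX.add o1).congr' ?_ (EventuallyEq.refl _ _)
  filter_upwards [self_mem_nhdsWithin] with ε hε
  have hε' : (0 : ℝ) < ε := hε
  have hb1 : ∀ x : HX K, |TT 𝒮 x * (push K (qh D) x * cz τ (vx x))| ≤ N * (n * 1) := by
    intro x
    rw [abs_mul, abs_mul]
    have h1 : |push K (qh D) x| ≤ n := by
      have := push_abs_le (K := K) (qh_abs D) x
      rwa [mul_one] at this
    exact mul_le_mul (abs_TT 𝒮 x) (mul_le_mul h1 (abs_cz _ _) (abs_nonneg _) hn0)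
      (by positivity) hN0
  have hb2 : ∀ x : HX K, |(-1 : ℝ) * (TT 𝒮 x * (chi K (D : F) (σ (vx x)) * cz τ (vx x)))| ≤
      N * (n * 1) := by
    intro x
    rw [abs_mul, abs_neg, abs_one, one_mul, abs_mul, abs_mul]
    have h1 : |(chi K (D : F) (σ (vx x)) : ℝ)| ≤ n := abs_chi_le _ _
    exact mul_le_mul (abs_TT 𝒮 x) (mul_le_mul h1 (abs_cz _ _) (abs_nonneg _) hn0)
      (by positivity) hN0
  -- the correlation
  have hcorr : 𝒮.corr (F := F) (fun _ => D) τ ε =
      (sysH K).E ε (fun x => TT 𝒮 x * (push K (qh D) x * cz τ (vx x))) := by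
    have e1 : ∀ j ∈ 𝒮.P, ((sysH K).E ε fun x : HX K =>
        (𝒮.T j x * conj (vq K (𝒮.D (fun _ => D) j) τ x)).re) =
        (sysH K).E ε (fun x : HX K => (𝒮.T j x).re *
          (push K (qh D) x * cz τ (vx x))) := by
      intro j hj
      congr 1
      funext x
      have hcj : conj (((x.1 : ℕ) : ℂ) ^ ((τ : ℂ) * I)) = ((x.1 : ℕ) : ℂ) ^ (-((τ : ℂ) * I)) :=
        (sysH K).conj_cpow_I x τ
      have e3 : 𝒮.T j x = (((𝒮.T j x).re : ℝ) : ℂ) := by
        apply Complex.ext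
        · simp
        · rw [Complex.ofReal_im, hreal j hj x]
      rw [hSD j hj]
      unfold vq
      rw [map_mul, Complex.conj_ofReal, hcj, e3, Complex.re_ofReal_mul, Complex.re_ofReal_mul,
        Complex.ofReal_re]
      congr 2
      unfold cz zz
      rw [nm_vx]
    unfold Sy.corr
    rw [Finset.sum_congr rfl e1, ← (sysH K).E_sum hε' 𝒮.P _ (fun j => 𝒮.b j * (n * 1)) ?_]
    · congr 1
      funext x
      unfold Pool.Agent.W353.NF.TT
      rw [Finset.sum_mul]
    · intro j hj x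
      rw [abs_mul, abs_mul]
      have h1 : |push K (qh D) x| ≤ n := by
        have := push_abs_le (K := K) (qh_abs D) x
        rwa [mul_one] at this
      exact mul_le_mul ((Complex.abs_re_le_norm _).trans (𝒮.hT j hj x))
        (mul_le_mul h1 (abs_cz _ _) (abs_nonneg _) hn0) (by positivity) (𝒮.hb j hj)
  rw [hcorr]
  have e4 : (sysH K).E ε (fun x => TT 𝒮 x * (push K (qh D) x *
      cz τ (vx x)) - TT 𝒮 x * (chi K (D : F) (σ (vx x)) * cz τ (vx x))) =
      (sysH K).E ε (fun x => TT 𝒮 x * (push K (qh D) x * cz τ (vx x))) -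
      (sysH K).E ε (fun x => TT 𝒮 x * (chi K (D : F) (σ (vx x)) * cz τ (vx x))) := by
    have e5 := (sysH K).E_add hε' hb1 hb2
    rw [(sysH K).E_const_mul] at e5
    have e6 : (fun x : HX K => TT 𝒮 x * (push K (qh D) x *
      cz τ (vx x)) - TT 𝒮 x * (chi K (D : F) (σ (vx x)) * cz τ (vx x))) =
      fun x : HX K => TT 𝒮 x * (push K (qh D) x * cz τ (vx x)) +
        (-1 : ℝ) * (TT 𝒮 x * (chi K (D : F) (σ (vx x)) * cz τ (vx x))) := by
      funext x
      ring
    exact (congrArg ((sysH K).E ε) e6).trans (e5.trans (by ring))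
  rw [e4]
  ring

/-! the signed number of fixed embeddings as a class function -/

theorem exists_sqrt (i : F →ₐ[K] AlgebraicClosure K) (D : F) :
    ∃ s : AlgebraicClosure K, s ^ 2 = i D :=
  IsAlgClosed.exists_pow_nat_eq (i D) (n := 2) (by norm_num)

theorem chi_conj {D : F} (hD : D ≠ 0) (σ ρ : GK K) :
    chi K D (ρ * σ * ρ⁻¹) = chi K D σ := by
  classical
  unfold chi
  refine Finset.sum_bij (fun i _ => act K F ρ⁻¹ i) ?_ ?_ ?_ ?_
  · intro i hi
    rw [Finset.mem_filter] at hi ⊢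
    refine ⟨Finset.mem_univ _, ?_⟩
    have h := hi.2
    rw [map_mul, map_mul, Equiv.Perm.mul_apply, Equiv.Perm.mul_apply] at h
    rw [map_inv] at h ⊢
    rw [Equiv.Perm.eq_inv_iff_eq]
    exact h
  · intro i _ j _ h
    exact (act K F ρ⁻¹).injective h
  · intro i hi
    rw [Finset.mem_filter] at hi
    refine ⟨act K F ρ i, ?_, ?_⟩
    · rw [Finset.mem_filter]
      refine ⟨Finset.mem_univ _, ?_⟩
      rw [map_mul, map_mul, Equiv.Perm.mul_apply, Equiv.Perm.mul_apply, map_inv]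
      have h0 : (act K F ρ)⁻¹ ((act K F ρ) i) = i := (act K F ρ).symm_apply_apply i
      rw [h0, hi.2]
    · rw [map_inv]
      exact (act K F ρ).symm_apply_apply i
  · intro i hi
    rw [Finset.mem_filter] at hi
    congr 1
    obtain ⟨s, hs⟩ := exists_sqrt i D
    have hfix : act K F σ (act K F ρ⁻¹ i) = act K F ρ⁻¹ i := by
      have h := hi.2
      rw [map_mul, map_mul, Equiv.Perm.mul_apply, Equiv.Perm.mul_apply] at h
      rw [map_inv] at h ⊢
      rw [Equiv.Perm.eq_inv_iff_eq]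
      exact h
    have hs' : (ρ⁻¹ s) ^ 2 = (act K F ρ⁻¹ i) D := by
      rw [← map_pow, hs]
      rfl
    refine sg_unique hD hi.2 hs ?_
    have h1 := sg_spec hfix hs'
    change ρ (σ (ρ⁻¹ s)) = _
    rw [h1, map_mul, map_intCast]
    congr 1
    exact AlgEquiv.apply_symm_apply ρ s

theorem chi_inv {D : F} (hD : D ≠ 0) (σ : GK K) : chi K D σ⁻¹ = chi K D σ := by
  classical
  unfold chi
  have hiff : ∀ i : F →ₐ[K] AlgebraicClosure K, act K F σ⁻¹ i = i ↔ act K F σ i = i := by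
    intro i
    rw [map_inv]
    constructor
    · intro h
      rw [Equiv.Perm.inv_eq_iff_eq] at h
      exact h.symm
    · intro h
      rw [Equiv.Perm.inv_eq_iff_eq]
      exact h.symm
  refine Finset.sum_congr ?_ ?_
  · ext i
    rw [Finset.mem_filter, Finset.mem_filter, hiff]
  · intro i hi
    rw [Finset.mem_filter] at hi
    congr 1
    obtain ⟨s, hs⟩ := exists_sqrt i D
    refine sg_unique hD ((hiff i).2 hi.2) hs ?_
    have h1 := sg_spec hi.2 hs
    have h2 : σ⁻¹ (σ s) = s := AlgEquiv.symm_apply_apply σ s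
    rw [h1, map_mul, map_intCast] at h2
    have h3 : ((((sg D σ i : ℤˣ) : ℤ) : ℤ) : AlgebraicClosure K) *
        (((sg D σ i : ℤˣ) : ℤ) : AlgebraicClosure K) = 1 := by
      rcases Int.units_eq_one_or (sg D σ i) with h | h <;> rw [h] <;> simp
    calc σ⁻¹ s = (((sg D σ i : ℤˣ) : ℤ) : AlgebraicClosure K) *
        ((((sg D σ i : ℤˣ) : ℤ) : AlgebraicClosure K) * σ⁻¹ s) := by
          rw [← mul_assoc, h3, one_mul]
      _ = _ := by rw [h2]

/-- multiplication by an automorphism acting by signs -/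
theorem chi_mul {D : F} (hD : D ≠ 0) (σ h : GK K) (hh : act K F h = 1)
    (ε : (F →ₐ[K] AlgebraicClosure K) → ℤˣ)
    (hε : ∀ i, ∀ s : AlgebraicClosure K, s ^ 2 = i D → h s = ((ε i : ℤˣ) : ℤ) * s) :
    chi K D (σ * h) = by
      classical
      exact ∑ i ∈ (Finset.univ.filter fun i : F →ₐ[K] AlgebraicClosure K => act K F σ i = i),
        (((sg D σ i * ε i : ℤˣ)) : ℤ) := by
  classical
  unfold chi
  refine Finset.sum_congr ?_ ?_
  · ext i
    rw [Finset.mem_filter, Finset.mem_filter, map_mul, hh, mul_one]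
  · intro i hi
    rw [Finset.mem_filter] at hi
    congr 1
    obtain ⟨s, hs⟩ := exists_sqrt i D
    refine sg_unique hD (by rw [map_mul, hh, mul_one]; exact hi.2) hs ?_
    change σ (h s) = _
    rw [hε i s hs, map_mul, map_intCast, sg_spec hi.2 hs]
    push_cast
    ring

theorem chi_mul_ker {D : F} (hD : D ≠ 0) (σ u : GK K) (hu : act K F u = 1)
    (hu' : ∀ i : F →ₐ[K] AlgebraicClosure K, ∀ s : AlgebraicClosure K, s ^ 2 = i D → u s = s) :
    chi K D (σ * u) = chi K D σ := by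
  classical
  rw [chi_mul hD σ u hu (fun _ => 1) (fun i s hs => by rw [hu' i s hs]; simp)]
  unfold chi
  simp only [mul_one]

end

section
variable {K : Type} [Field K] [NumberField K]

/-- **The inequality at one height.** -/
theorem ineqD (𝒮 : Sy K) (hreal : ∀ j ∈ 𝒮.P, ∀ x, (𝒮.T j x).im = 0)
    (U : Subgroup (GK K)) [U.Normal] (hU : IsOpen (U : Set (GK K))) [Finite (GK K ⧸ U)]
    {κ : Type*} (S : Finset κ) (F : κ → Type) [∀ k, Field (F k)] [∀ k, NumberField (F k)]
    [∀ k, Algebra K (F k)] (D : ∀ k, 𝓞 (F k)) (hD : ∀ k ∈ S, D k ≠ 0)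
    (hSD : ∀ k ∈ S, ∀ j ∈ 𝒮.P, 𝒮.D (fun _ => D k) j = D k)
    (hker : ∀ k ∈ S, ∀ u ∈ U, act K (F k) u = 1 ∧
      ∀ i : F k →ₐ[K] AlgebraicClosure K, ∀ s : AlgebraicClosure K, s ^ 2 = i (D k) → u s = s)
    (τ : ℝ)
    (X : κ → ℝ → ℝ) (hX : ∀ k ∈ S, 𝒮.IsSize (F := F k) (fun _ => D k) τ (X k)) (c : κ → ℝ)
    {η : ℝ} (hη : 0 < η) :
    ∀ᶠ ε : ℝ in 𝓝[>] 0, |∑ k ∈ S, c k * X k ε| ≤ (∑ j ∈ 𝒮.P, 𝒮.b j) *
      (kap τ * avR U fun q => |∑ k ∈ S, c k * (chi K (D k : F k) q.out : ℝ)|) + η := by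
  classical
  choose σ hσ using exists_isFrob (F := K)
  set N : ℝ := ∑ j ∈ 𝒮.P, 𝒮.b j with hN
  have hN0 : 0 ≤ N := Finset.sum_nonneg fun j hj => 𝒮.hb j hj
  have hD' : ∀ k ∈ S, (D k : F k) ≠ 0 := fun k hk h => hD k hk (RingOfIntegers.ext h)
  set B : κ → ℝ := fun k => (Module.finrank ℚ (F k) : ℝ) with hB
  have hBk : ∀ k ∈ S, ∀ v, |(chi K (D k : F k) (σ v) : ℝ) * cz τ v| ≤ B k := by
    intro k _ v
    rw [abs_mul]
    calc |(chi K (D k : F k) (σ v) : ℝ)| * |cz τ v| ≤ B k * 1 :=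
          mul_le_mul (abs_chi_le _ _) (abs_cz _ _) (abs_nonneg _) (by positivity)
      _ = B k := mul_one _
  have h1 := SzH.sum S (fun k hk => size_chi 𝒮 hreal (hD k hk) (hSD k hk) σ hσ (hX k hk))
    (abs_TT 𝒮) hBk c
  set ψ : GK K → ℝ := fun g => ∑ k ∈ S, c k * (chi K (D k : F k) g : ℝ) with hψ
  have hlim := real_mean U hU ψ (by
      intro g u hu
      rw [hψ]
      exact Finset.sum_congr rfl fun k hk => by
        rw [chi_mul_ker (hD' k hk) _ _ (hker k hk u hu).1 (hker k hk u hu).2]) (by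
      intro g ρ
      rw [hψ]
      exact Finset.sum_congr rfl fun k hk => by rw [chi_conj (hD' k hk)]) (by
      intro g
      rw [hψ]
      exact Finset.sum_congr rfl fun k hk => by rw [chi_inv (hD' k hk)]) σ hσ τ
  refine size_le hN0 (abs_TT 𝒮) (B := ∑ k ∈ S, |c k| * B k) ?_ h1 ?_ hη
  · intro v
    refine (Finset.abs_sum_le_sum_abs _ _).trans (Finset.sum_le_sum fun k hk => ?_)
    rw [abs_mul]
    exact mul_le_mul_of_nonneg_left (hBk k hk v) (abs_nonneg _)
  · intro η' hη'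
    refine (hlim.eventually_lt_const (lt_add_of_pos_right _ hη')).mono fun ε hε => ?_
    refine le_trans (le_of_eq ?_) hε.le
    congr 2
    funext v
    congr 1
    rw [hψ]
    simp only
    rw [Finset.sum_mul]
    exact Finset.sum_congr rfl fun k _ => by ring

end

end Pool.Agent.TH322.BC
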