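import Pool.Agent.TH322.BC.Mean
import Pool.Agent.TH322.BC.Even

/-! Twists over fields with symmetric Galois group. -/

set_option autoImplicit false
set_option linter.unusedSectionVars false

namespace Pool.Agent.TH322.BC

open Complex Filter Topology ComplexConjugate NumberField IsDedekindDomain
  Pool.Agent.W401.Cheb Pool.Agent.W353.L1 Pool.Agent.W353.NF

section
variable {K F : Type} [Field K] [NumberField K] [Field F] [NumberField F] [Algebra K F]

/-- The sign vector `ε` is given by an automorphism fixing the conjugates of `F`. -/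
def IsSign (K : Type) {F : Type} [Field K] [NumberField K] [Field F] [NumberField F]
    [Algebra K F] (D : F) (ε : (F →ₐ[K] AlgebraicClosure K) → ℤˣ) : Prop :=
  ∃ h : GK K, act K F h = 1 ∧
    ∀ i, ∀ s : AlgebraicClosure K, s ^ 2 = i D → h s = ((ε i : ℤˣ) : ℤ) * s

theorem IsSign.one (D : F) : IsSign K D (fun _ => 1) :=
  ⟨1, map_one _, fun i s _ => by
    change s = _
    simp⟩

theorem IsSign.mul {D : F} {ε ε' : (F →ₐ[K] AlgebraicClosure K) → ℤˣ} (h : IsSign K D ε)
    (h' : IsSign K D ε') : IsSign K D (fun i => ε i * ε' i) := by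
  obtain ⟨g, h1, h2⟩ := h
  obtain ⟨g', h1', h2'⟩ := h'
  refine ⟨g * g', by rw [map_mul, h1, h1', mul_one], fun i s hs => ?_⟩
  change g (g' s) = _
  rw [h2' i s hs, map_mul, map_intCast, h2 i s hs]
  push_cast
  ring

theorem IsSign.conj {D : F} {ε : (F →ₐ[K] AlgebraicClosure K) → ℤˣ} (h : IsSign K D ε)
    (ρ : GK K) : IsSign K D (fun i => ε (act K F ρ⁻¹ i)) := by
  obtain ⟨g, h1, h2⟩ := h
  refine ⟨ρ * g * ρ⁻¹, by rw [map_mul, map_mul, h1, mul_one, map_inv, mul_inv_cancel],
    fun i s hs => ?_⟩
  have hs' : (ρ⁻¹ s) ^ 2 = (act K F ρ⁻¹ i) D := by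
    rw [← map_pow, hs]
    rfl
  change ρ (g (ρ⁻¹ s)) = _
  rw [h2 _ _ hs', map_mul, map_intCast]
  congr 1
  exact AlgEquiv.apply_symm_apply ρ s

/-- the vector with the sign `-1` at two places -/
def pv {Y : Type*} [DecidableEq Y] (a b : Y) (i : Y) : ℤˣ := if i = a ∨ i = b then -1 else 1

theorem pair_sign [DecidableEq (F →ₐ[K] AlgebraicClosure K)]
    (hs : Function.Surjective (act K F)) {D : F}
    {ε : (F →ₐ[K] AlgebraicClosure K) → ℤˣ} (h : IsSign K D ε)
    {a b : F →ₐ[K] AlgebraicClosure K} (hab : ε a ≠ ε b) : IsSign K D (pv a b) := by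
  obtain ⟨ρ, hρ⟩ := hs (Equiv.swap a b)
  have h1 := h.mul (h.conj ρ)
  convert h1 using 1
  funext i
  have hinv : act K F ρ⁻¹ = Equiv.swap a b := by
    rw [map_inv, hρ, Equiv.swap_inv]
  rw [hinv]
  unfold pv
  have hne : a ≠ b := fun h' => hab (by rw [h'])
  have hab2 : ε a * ε b = -1 := by
    rcases Int.units_eq_one_or (ε a) with h' | h' <;>
    rcases Int.units_eq_one_or (ε b) with h'' | h'' <;> rw [h', h''] at hab ⊢
    · exact absurd rfl hab
    · rfl
    · rfl
    · exact absurd rfl hab
  by_cases hia : i = a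
  · subst hia
    rw [if_pos (Or.inl rfl), Equiv.swap_apply_left, hab2]
  · by_cases hib : i = b
    · subst hib
      rw [if_pos (Or.inr rfl), Equiv.swap_apply_right, mul_comm, hab2]
    · rw [if_neg (by tauto), Equiv.swap_apply_of_ne_of_ne hia hib]
      rcases Int.units_eq_one_or (ε i) with h' | h' <;> rw [h'] <;> rfl

theorem exists_perm {Y : Type*} [DecidableEq Y] {a b c d : Y} (hab : a ≠ b) (hcd : c ≠ d) :
    ∃ π : Equiv.Perm Y, π a = c ∧ π b = d := by
  refine ⟨Equiv.swap (Equiv.swap a c b) d * Equiv.swap a c, ?_, ?_⟩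
  · rw [Equiv.Perm.mul_apply, Equiv.swap_apply_left]
    refine Equiv.swap_apply_of_ne_of_ne ?_ hcd
    intro h
    have h1 : Equiv.swap a c c = Equiv.swap a c (Equiv.swap a c b) := congrArg _ h
    rw [Equiv.swap_apply_right, Equiv.swap_apply_self] at h1
    exact hab h1
  · rw [Equiv.Perm.mul_apply, Equiv.swap_apply_left]

theorem all_pairs [DecidableEq (F →ₐ[K] AlgebraicClosure K)]
    (hs : Function.Surjective (act K F)) {D : F}
    {ε : (F →ₐ[K] AlgebraicClosure K) → ℤˣ} (h : IsSign K D ε)
    {a b : F →ₐ[K] AlgebraicClosure K} (hab : ε a ≠ ε b)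
    (c d : F →ₐ[K] AlgebraicClosure K) (hcd : c ≠ d) : IsSign K D (pv c d) := by
  have hne : a ≠ b := fun h' => hab (by rw [h'])
  obtain ⟨π, hπa, hπb⟩ := exists_perm hne hcd
  obtain ⟨ρ, hρ⟩ := hs π
  have h1 := (pair_sign hs h hab).conj ρ
  convert h1 using 1
  funext i
  unfold pv
  have h2 : ∀ x, act K F ρ⁻¹ i = x ↔ i = π x := by
    intro x
    rw [map_inv, hρ, Equiv.Perm.inv_eq_iff_eq]
  simp only [h2, hπa, hπb]

/-- all sign vectors with product `1` -/
theorem all_even [DecidableEq (F →ₐ[K] AlgebraicClosure K)]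
    (hs : Function.Surjective (act K F)) {D : F}
    {ε : (F →ₐ[K] AlgebraicClosure K) → ℤˣ} (h : IsSign K D ε)
    {a b : F →ₐ[K] AlgebraicClosure K} (hab : ε a ≠ ε b)
    (η : (F →ₐ[K] AlgebraicClosure K) → ℤˣ) (hη : ∏ i, η i = 1) : IsSign K D η := by
  induction hn : (Finset.univ.filter fun i => η i = -1).card using Nat.strong_induction_on
    generalizing η with
  | _ n ih =>
    rcases (Finset.univ.filter fun i => η i = -1).eq_empty_or_nonempty with h0 | h0
    · have h1 : η = fun _ => 1 := by
        funext i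
        rcases Int.units_eq_one_or (η i) with h' | h'
        · exact h'
        · exfalso
          have : i ∈ Finset.univ.filter fun i => η i = -1 :=
            Finset.mem_filter.2 ⟨Finset.mem_univ _, h'⟩
          rw [h0] at this
          exact absurd this (Finset.notMem_empty i)
      rw [h1]
      exact IsSign.one D
    · obtain ⟨c, hc⟩ := h0
      rw [Finset.mem_filter] at hc
      obtain ⟨d, hdc, hd⟩ : ∃ d, d ≠ c ∧ η d = -1 := by
        by_contra hcon
        push Not at hcon
        have h2 : ∏ i, η i = -1 := by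
          rw [← Finset.mul_prod_erase Finset.univ _ (Finset.mem_univ c), hc.2,
            Finset.prod_eq_one, mul_one]
          intro i hi
          exact (Int.units_eq_one_or (η i)).resolve_right (hcon i (Finset.ne_of_mem_erase hi))
        rw [h2] at hη
        exact absurd hη (by decide)
      have hp := all_pairs hs h hab c d hdc.symm
      have hprod : ∏ i, pv c d i = 1 := by
        rw [← Finset.mul_prod_erase Finset.univ _ (Finset.mem_univ c),
          ← Finset.mul_prod_erase (Finset.univ.erase c) _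
            (Finset.mem_erase.2 ⟨hdc, Finset.mem_univ d⟩), Finset.prod_eq_one, mul_one]
        · unfold pv
          rw [if_pos (Or.inl rfl), if_pos (Or.inr rfl)]
          rfl
        · intro i hi
          rw [Finset.mem_erase, Finset.mem_erase] at hi
          unfold pv
          rw [if_neg]
          tauto
      have h3 := ih (Finset.univ.filter fun i => η i * pv c d i = -1).card (by
        rw [← hn]
        refine Finset.card_lt_card ?_
        rw [Finset.ssubset_iff_of_subset]
        · refine ⟨c, Finset.mem_filter.2 ⟨Finset.mem_univ _, hc.2⟩, ?_⟩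
          rw [Finset.mem_filter]
          rintro ⟨-, h'⟩
          rw [hc.2] at h'
          unfold pv at h'
          rw [if_pos (Or.inl rfl)] at h'
          exact absurd h' (by decide)
        · intro i hi
          rw [Finset.mem_filter] at hi ⊢
          refine ⟨Finset.mem_univ _, ?_⟩
          have h' := hi.2
          unfold pv at h'
          split_ifs at h' with h''
          · rcases h'' with h'' | h''
            · rw [h'']; exact hc.2
            · rw [h'']; exact hd
          · rwa [mul_one] at h') (fun i => η i * pv c d i)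
        (by rw [Finset.prod_mul_distrib, hη, hprod, mul_one]) rfl
      have h4 := h3.mul hp
      convert h4 using 1
      funext i
      rw [mul_assoc]
      rcases Int.units_eq_one_or (pv c d i) with h' | h' <;> rw [h']
      · rw [mul_one, mul_one]
      · rw [neg_mul_neg, one_mul, mul_one]

/-- mean values of the fixed point counts -/
theorem mean_fixn (D : F) : avR (kerD K D) (fun q => (fixn K F q.out : ℝ)) = 1 := by
  have hfinU : Finite (GK K ⧸ kerD K D) := Subgroup.quotient_finite_of_isOpen _ (kerD_open D)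
  have hfinV : Finite (GK K ⧸ (act K F).ker) :=
    Subgroup.quotient_finite_of_isOpen _ (ker_act_open K F)
  have hm2 := avR_mono (K := K) (kerD_le D) (f := fun g => (fixn K F g : ℝ))
    (fun g u hu => by
      have : fixn K F (g * u) = fixn K F g := fixn_mul_ker K F g u hu
      rw [this])
  rw [hm2]
  have g1 := avR_ker (act K F) fun π => ((Nat.card {y // π y = y} : ℕ) : ℝ)
  have g2 : (fun q : GK K ⧸ (act K F).ker => (fixn K F q.out : ℝ)) = fun q =>
      ((Nat.card {y // act K F q.out y = y} : ℕ) : ℝ) := rfl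
  rw [g2, g1]
  have g3 := burnside (G := (act K F).range) (Y := F →ₐ[K] AlgebraicClosure K)
    (act K F).range.subtype (fun i j => by
      obtain ⟨σ, hσ⟩ := act_trans K F i j
      exact ⟨⟨act K F σ, ⟨σ, rfl⟩⟩, hσ⟩)
  have g4 : ∑ᶠ (h : (act K F).range), ((Nat.card {y // h.1 y = y} : ℕ) : ℝ) =
      Nat.card (act K F).range := g3
  rw [g4]
  exact inv_mul_cancel₀ (by exact_mod_cast Nat.card_pos.ne')

theorem mean_fixn_sub (D : F) :
    avR (kerD K D) (fun q => |(fixn K F q.out : ℝ) - 1|) = 2 * drg K F := by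
  have hfinU : Finite (GK K ⧸ kerD K D) := Subgroup.quotient_finite_of_isOpen _ (kerD_open D)
  have hfinV : Finite (GK K ⧸ (act K F).ker) :=
    Subgroup.quotient_finite_of_isOpen _ (ker_act_open K F)
  rw [avR_mono (K := K) (kerD_le D) (f := fun g => |(fixn K F g : ℝ) - 1|)
    (fun g u hu => by
      have : fixn K F (g * u) = fixn K F g := fixn_mul_ker K F g u hu
      rw [this])]
  exact mean_drg K F

/-- **The mean value for sign vectors with product `1`.** -/
theorem mean_even {D : F} (hD : D ≠ 0) (h3 : 3 ≤ Fintype.card (F →ₐ[K] AlgebraicClosure K))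
    (hall : ∀ η : (F →ₐ[K] AlgebraicClosure K) → ℤˣ, ∏ i, η i = 1 → IsSign K D η)
    (honly : ∀ η : (F →ₐ[K] AlgebraicClosure K) → ℤˣ, IsSign K D η → ∏ i, η i = 1) :
    avR (kerD K D) (fun q => |(chi K D q.out : ℝ)|) ≤ 1 - 3 / 4 * drg K F := by
  classical
  have hfinU : Finite (GK K ⧸ kerD K D) := Subgroup.quotient_finite_of_isOpen _ (kerD_open D)
  set Y := (F →ₐ[K] AlgebraicClosure K) with hY
  have hsel : ∀ ε : Y → ℤˣ, ∃ h : GK K, ε ∈ evs Y → (act K F h = 1 ∧
      ∀ i, ∀ s : AlgebraicClosure K, s ^ 2 = i D → h s = ((ε i : ℤˣ) : ℤ) * s) := by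
    intro ε
    by_cases hε : ε ∈ evs Y
    · obtain ⟨h, h1, h2⟩ := hall ε (mem_evs.1 hε)
      exact ⟨h, fun _ => ⟨h1, h2⟩⟩
    · exact ⟨1, fun h => absurd h hε⟩
  choose h hh using hsel
  set fx : GK K → Finset Y := fun σ => Finset.univ.filter fun i => act K F σ i = i with hfx
  have hinv : ∀ g, ∀ u ∈ kerD K D, |(chi K D (g * u) : ℝ)| = |(chi K D g : ℝ)| := by
    intro g u hu
    rw [chi_mul_ker hD g u hu.1 hu.2]
  have hcpos : (0 : ℝ) < (evs Y).card := by
    have : 0 < (evs Y).card := Finset.card_pos.2 ⟨fun _ => 1, mem_evs.2 (by simp)⟩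
    exact_mod_cast this
  have e1 : ((evs Y).card : ℝ) * avR (kerD K D) (fun q => |(chi K D q.out : ℝ)|) =
      avR (kerD K D) (fun q => ∑ ε ∈ evs Y, |(chi K D (q.out * h ε) : ℝ)|) := by
    rw [avR_sum, Finset.sum_congr rfl fun ε _ => avR_mul (kerD K D)
      (f := fun g => |(chi K D g : ℝ)|) hinv (h ε), Finset.sum_const, nsmul_eq_mul]
  have e2 : ∀ σ : GK K, ∑ ε ∈ evs Y, |(chi K D (σ * h ε) : ℝ)| =
      ((∑ ε ∈ evs Y, |sgs (fx σ) (fun i => sg D σ i * ε i)| : ℤ) : ℝ) := by
    intro σ
    push_cast
    refine Finset.sum_congr rfl fun ε hε => ?_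
    rw [chi_mul hD σ (h ε) (hh ε hε).1 ε (hh ε hε).2]
    unfold sgs
    push_cast
    rfl
  have e3 : ∀ σ : GK K, ((∑ ε ∈ evs Y, |sgs (fx σ) (fun i => sg D σ i * ε i)| : ℤ) : ℝ) ≤
      ((evs Y).card : ℝ) * (1 - 3 / 8 * |(fixn K F σ : ℝ) - 1| -
        5 / 8 * (1 - (fixn K F σ : ℝ))) := by
    intro σ
    have hc : fixn K F σ = (fx σ).card := by
      unfold fixn
      rw [Nat.card_eq_fintype_card, Fintype.card_subtype]
    rcases (fx σ).eq_empty_or_nonempty with h0 | h0
    · rw [h0, hc, h0, Finset.card_empty]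
      simp only [sgs, Finset.sum_empty, abs_zero, Finset.sum_const_zero]
      norm_num
    · have hun : fx σ = Finset.univ → ∏ i, sg D σ i = 1 := by
        intro h1
        have h2 : act K F σ = 1 := by
          refine Equiv.ext fun i => ?_
          have : i ∈ fx σ := by rw [h1]; exact Finset.mem_univ _
          exact (Finset.mem_filter.1 this).2
        refine honly _ ⟨σ, h2, fun i s hs => ?_⟩
        exact sg_spec (by rw [h2]; rfl) hs
      have h3' := evs_mean h3 h0 hun
      have h4 : (1 : ℝ) ≤ (fx σ).card := by exact_mod_cast h0.card_pos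
      rw [hc, abs_of_nonneg (by linarith)]
      have h5 : (4 : ℝ) * ((∑ ε ∈ evs Y, |sgs (fx σ) (fun i => sg D σ i * ε i)| : ℤ) : ℝ) ≤
          (evs Y).card * ((fx σ).card + 3) := by exact_mod_cast h3'
      nlinarith [h5]
  have e4 : ((evs Y).card : ℝ) * avR (kerD K D) (fun q => |(chi K D q.out : ℝ)|) ≤
      (evs Y).card * (1 - 3 / 4 * drg K F) := by
    rw [e1]
    calc avR (kerD K D) (fun q => ∑ ε ∈ evs Y, |(chi K D (q.out * h ε) : ℝ)|)
        ≤ avR (kerD K D) (fun q => ((evs Y).card : ℝ) *
            (1 - 3 / 8 * |(fixn K F q.out : ℝ) - 1| -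
            5 / 8 * (1 - (fixn K F q.out : ℝ)))) :=
          avR_mono_le _ fun q => by rw [e2]; exact e3 _
      _ = (evs Y).card * (1 - 3 / 4 * drg K F) := by
          rw [avR_const_mul]
          congr 1
          have g5 : (fun q : GK K ⧸ kerD K D => 1 - 3 / 8 * |(fixn K F q.out : ℝ) - 1| -
              5 / 8 * (1 - (fixn K F q.out : ℝ))) = fun q =>
              (3 / 8 : ℝ) + ((-(3 / 8)) * |(fixn K F q.out : ℝ) - 1| +
                5 / 8 * (fixn K F q.out : ℝ)) := by
            funext q
            ring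
          rw [g5, avR_add, avR_add, avR_one, avR_const_mul, avR_const_mul, mean_fixn,
            mean_fixn_sub]
          ring
  exact le_of_mul_le_mul_left e4 hcpos

/-- **Twists over fields with symmetric Galois group.** -/
theorem mean_sym (hs : Function.Surjective (act K F)) (hn : 3 ≤ Module.finrank K F) {D : F}
    (hD : D ≠ 0) {ε : (F →ₐ[K] AlgebraicClosure K) → ℤˣ} (h : IsSign K D ε)
    {a b : F →ₐ[K] AlgebraicClosure K} (hab : ε a ≠ ε b) :
    avR (kerD K D) (fun q => |(chi K D q.out : ℝ)|) ≤ 3 / 4 := by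
  classical
  have h3 : 3 ≤ Fintype.card (F →ₐ[K] AlgebraicClosure K) := by
    rw [AlgHom.card K F (AlgebraicClosure K)]
    exact hn
  have hd := drg_ge (K := K) (F := F) hs (by omega)
  have hev := all_even hs h hab
  by_cases hodd : ∃ η : (F →ₐ[K] AlgebraicClosure K) → ℤˣ, IsSign K D η ∧ ∏ i, η i ≠ 1
  · obtain ⟨η, hη, hη1⟩ := hodd
    have hη2 : ∏ i, η i = -1 := (Int.units_eq_one_or _).resolve_left hη1
    have hall : AllSigns K D := by
      intro θ
      rcases Int.units_eq_one_or (∏ i, θ i) with h' | h'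
      · exact hev θ h'
      · have h4 := hev (fun i => θ i * η i) (by
          rw [Finset.prod_mul_distrib, h', hη2]
          rfl)
        have h5 := h4.mul hη
        have e5 : (fun i => θ i * η i * η i) = θ := by
          funext i
          rw [mul_assoc]
          rcases Int.units_eq_one_or (η i) with h'' | h'' <;> rw [h'']
          · rw [mul_one, mul_one]
          · rw [neg_mul_neg, one_mul, mul_one]
        rw [e5] at h5
        exact h5
    have := mean_twist hD hall
    linarith
  · push Not at hodd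
    have := mean_even hD h3 hev hodd
    linarith

end

end Pool.Agent.TH322.BC
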